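import Pool.Agent.N924.CG.Indep
import Pool.Agent.H33R4.PB2

set_option autoImplicit false

/-! # One class of polynomials -/

namespace Pool.Agent.N924.CG

open Polynomial Pool.Agent.H33R4 Pool.Agent.N924.LP

noncomputable section

variable {p : ℕ} [hp : Fact p.Prime]

omit hp in
theorem pow_step {B : Type} [CommRing B] {x y : B} {T : ℕ} (hT : 1 ≤ T)
    (h : (p : B) ^ T ∣ x - y) : (p : B) ^ (T + 1) ∣ x ^ p - y ^ p := by
  have h1 : (p : B) ∣ x - y := (dvd_pow_self _ (by omega)).trans h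
  rw [← geom_sum₂_mul, pow_succ']
  exact mul_dvd_mul (dvd_geom_sum₂_self h1) h

omit hp in
theorem pow_steps {B : Type} [CommRing B] {x y : B} {T : ℕ} (hT : 1 ≤ T)
    (h : (p : B) ^ T ∣ x - y) (k : ℕ) : (p : B) ^ (T + k) ∣ x ^ p ^ k - y ^ p ^ k := by
  induction k with
  | zero => simpa using h
  | succ k ih =>
    have h1 := pow_step (T := T + k) (by omega) ih
    rw [← pow_mul, ← pow_mul, ← pow_succ] at h1
    exact h1

omit hp in
theorem tf_pow {B : Type} [CommRing B] (hB : PGood p B) (T : ℕ) (b : B)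
    (h : (p : B) ^ T * b = 0) : b = 0 := by
  induction T with
  | zero => simpa using h
  | succ T ih =>
    apply ih
    apply hB.tf
    rw [← h]
    ring

omit hp in
theorem log_cong {B : Type} [CommRing B] (hB : PGood p B) {x y l m : B} (hx : IsLog p x l)
    (hy : IsLog p y m) {T : ℕ} (hT : 1 ≤ T) (h : (p : B) ^ T ∣ x - y) : (p : B) ^ T ∣ l - m := by
  have h1 := pow_steps hT h T
  have h4 : (p : B) ^ (2 * T) ∣ (p : B) ^ T * (l - m) := by
    have e : (p : B) ^ T * (l - m) = (x ^ p ^ T - y ^ p ^ T) -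
        ((x ^ p ^ T - 1 - (p : B) ^ T * l) - (y ^ p ^ T - 1 - (p : B) ^ T * m)) := by ring
    rw [e]
    exact dvd_sub (by rwa [two_mul]) (dvd_sub (hx T) (hy T))
  obtain ⟨w, hw⟩ := h4
  refine ⟨w, ?_⟩
  have h5 : (p : B) ^ T * (l - m - (p : B) ^ T * w) = 0 := by
    rw [mul_sub, hw]
    ring
  exact sub_eq_zero.1 (tf_pow hB T _ h5)

theorem log_pow {B : Type} [CommRing B] {x l : B} (hx : IsLog p x l) (n : ℕ) :
    IsLog p (x ^ n) ((n : B) * l) := by
  induction n with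
  | zero => simpa using (logB_proof p hp.out B).1
  | succ n ih =>
    have h1 := (logB_proof p hp.out B).2.1 _ _ _ _ ih hx
    rw [pow_succ]
    convert h1 using 1
    push_cast
    ring

theorem log_prod {B : Type} [CommRing B] {r : ℕ} (s : Finset (Fin r)) (x l : Fin r → B)
    (hx : ∀ k, IsLog p (x k) (l k)) (n : Fin r → ℕ) :
    IsLog p (∏ k ∈ s, x k ^ n k) (∑ k ∈ s, (n k : B) * l k) := by
  classical
  induction s using Finset.induction_on with
  | empty => simpa using (logB_proof p hp.out B).1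
  | insert k s hk ih =>
    rw [Finset.prod_insert hk, Finset.sum_insert hk]
    exact (logB_proof p hp.out B).2.1 _ _ _ _ (log_pow (hx k) _) ih

/-- `P(θ)` is prime to `p`, for the root `θ` of the polynomial with coefficients `z` -/
def Cop (p : ℕ) {n : ℕ} (z : Fin n → ℤ) (P : ℤ[X]) : Prop :=
  IsCoprime ((gp z).map (Int.castRingHom (ZMod p))) (P.map (Int.castRingHom (ZMod p)))

/-- the coefficients near `ρ` -/
def ZZ {n : ℕ} (S : Sys p n) (ρ : Fin n → ℤ) : Fin n → S.R := fun i => (ρ i : S.R) + p * S.x i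

theorem ZZ_apply {n : ℕ} (S : Sys p n) (ρ : Fin n → ℤ) (i : Fin n) :
    ZZ S ρ i = (ρ i : S.R) + p * S.x i := rfl

theorem exists_exp {n : ℕ} (S : Sys p n) (ρ : Fin n → ℤ) {r : ℕ} (P : Fin r → ℤ[X])
    (hP : ∀ k, Cop p ρ (P k)) :
    ∃ M : ℕ, 0 < M ∧ (p - 1) ∣ M ∧ ∀ k, (p : AdjoinRoot (gp (ZZ S ρ))) ∣
      (AdjoinRoot.mk (gp (ZZ S ρ)) ((P k).map (Int.castRingHom S.R))) ^ M - 1 := by
  classical
  set B := AdjoinRoot (gp (ZZ S ρ)) with hB
  set I : Ideal B := Ideal.span {(p : B)} with hI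
  let q : B →+* B ⧸ I := Ideal.Quotient.mk I
  have hqp : q (p : B) = 0 := Ideal.Quotient.eq_zero_iff_mem.2 (Ideal.mem_span_singleton_self _)
  have hqp' : ((p : ℕ) : B ⧸ I) = 0 := by rw [← map_natCast q p, hqp]
  have hp0 : ∀ a ∈ Ideal.span {(p : ℤ)}, (Int.castRingHom (B ⧸ I)) a = 0 := by
    intro a ha
    rw [Ideal.mem_span_singleton] at ha
    obtain ⟨b, rfl⟩ := ha
    rw [map_mul]
    have : (Int.castRingHom (B ⧸ I)) (p : ℤ) = 0 := by
      simp only [map_natCast]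
      exact hqp'
    rw [this, zero_mul]
  let c : ZMod p →+* B ⧸ I := (Ideal.Quotient.lift (Ideal.span {(p : ℤ)})
    (Int.castRingHom (B ⧸ I)) hp0).comp (Int.quotientSpanNatEquivZMod p).symm.toRingHom
  let κ : S.R →+* B ⧸ I := q.comp (AdjoinRoot.of (gp (ZZ S ρ)))
  let t : B ⧸ I := q (AdjoinRoot.root _)
  have hq : ∀ Q : S.R[X], q (AdjoinRoot.mk (gp (ZZ S ρ)) Q) = (Q.map κ).eval t := by
    intro Q
    have h1 : AdjoinRoot.mk (gp (ZZ S ρ)) Q =
        (Q.map (AdjoinRoot.of (gp (ZZ S ρ)))).eval (AdjoinRoot.root _) := by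
      rw [eval_map]
      exact (AdjoinRoot.aeval_eq _).symm
    rw [h1, ← Polynomial.eval₂_at_apply, ← Polynomial.eval_map, Polynomial.map_map]
  have hZ : (gp (ZZ S ρ)).map κ = (gp ρ).map (Int.castRingHom (B ⧸ I)) := by
    rw [gp_map, gp_map]
    congr 1
    funext i
    rw [ZZ_apply, map_add, map_mul, map_intCast, map_natCast, hqp', zero_mul, add_zero, eq_intCast]
  have hPm : ∀ P : ℤ[X], ((P.map (Int.castRingHom S.R)).map κ) =
      P.map (Int.castRingHom (B ⧸ I)) := by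
    intro P
    rw [Polynomial.map_map]
    exact congrArg (fun φ => P.map φ) (RingHom.ext_int _ _)
  have hPc : ∀ P : ℤ[X], ((P.map (Int.castRingHom (ZMod p))).map c) =
      P.map (Int.castRingHom (B ⧸ I)) := by
    intro P
    rw [Polynomial.map_map]
    exact congrArg (fun φ => P.map φ) (RingHom.ext_int _ _)
  set f0 : (ZMod p)[X] := (gp ρ).map (Int.castRingHom (ZMod p)) with hf0
  have hf0m : f0.Monic := (gp_monic ρ).map _
  have hlift : f0.eval₂ c t = 0 := by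
    rw [← Polynomial.eval_map, hf0, hPc, ← hZ, ← hq, AdjoinRoot.mk_self, map_zero]
  let ψ : AdjoinRoot f0 →+* B ⧸ I := AdjoinRoot.lift c _ hlift
  have hψ : ∀ P : ℤ[X], ψ (AdjoinRoot.mk f0 (P.map (Int.castRingHom (ZMod p)))) =
      q (AdjoinRoot.mk _ (P.map (Int.castRingHom S.R))) := by
    intro P
    rw [hq, hPm]
    change AdjoinRoot.lift c _ hlift _ = _
    rw [AdjoinRoot.lift_mk, ← Polynomial.eval_map, hPc]
  have _ : Module.Finite (ZMod p) (AdjoinRoot f0) := hf0m.finite_adjoinRoot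
  have _ : Finite (AdjoinRoot f0) := Module.finite_of_finite (ZMod p)
  have _ : Finite (AdjoinRoot f0)ˣ := inferInstance
  have hp1 : 0 < p - 1 := by have := hp.out.two_le; omega
  refine ⟨Nat.card (AdjoinRoot f0)ˣ * (p - 1), Nat.mul_pos Nat.card_pos hp1,
    dvd_mul_left _ _, fun k => ?_⟩
  obtain ⟨a, b, hab⟩ := hP k
  have hmul : AdjoinRoot.mk f0 ((P k).map (Int.castRingHom (ZMod p))) * AdjoinRoot.mk f0 b = 1 := by
    have h2 := congrArg (AdjoinRoot.mk f0) hab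
    rw [map_add, map_mul, map_mul, AdjoinRoot.mk_self, mul_zero, zero_add, map_one] at h2
    rw [mul_comm]
    exact h2
  let U : (AdjoinRoot f0)ˣ := ⟨_, _, hmul, by rw [mul_comm]; exact hmul⟩
  have hU : U ^ Nat.card (AdjoinRoot f0)ˣ = 1 := pow_card_eq_one'
  have hU2 : (AdjoinRoot.mk f0 ((P k).map (Int.castRingHom (ZMod p)))) ^
      Nat.card (AdjoinRoot f0)ˣ = 1 := by
    have := congrArg Units.val hU
    rw [Units.val_pow_eq_pow_val, Units.val_one] at this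
    exact this
  have h4 := congrArg ψ hU2
  rw [map_pow, hψ, map_one, ← map_pow] at h4
  have h5 := congrArg (fun x => x ^ (p - 1)) h4
  simp only [one_pow] at h5
  rw [← map_pow, ← pow_mul, ← sub_eq_zero, ← map_one q, ← map_sub] at h5
  exact Ideal.mem_span_singleton.1 (Ideal.Quotient.eq_zero_iff_mem.1 h5)

/-- `ℤ_p[θ]` -/
abbrev Zt (p : ℕ) [Fact p.Prime] {n : ℕ} (z : Fin n → ℤ) : Type :=
  AdjoinRoot ((gp z).map (Int.castRingHom ℤ_[p]))

/-- the value at `θ` in `ℤ_p[θ]` -/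
def vl (p : ℕ) [Fact p.Prime] {n : ℕ} (z : Fin n → ℤ) (Q : ℤ[X]) : Zt p z :=
  AdjoinRoot.mk _ (Q.map (Int.castRingHom ℤ_[p]))

/-- **Independence over `ℤ_p`** of the `P_k(θ)` -/
def IndA (p : ℕ) [Fact p.Prime] {n : ℕ} (z : Fin n → ℤ) {r : ℕ} (P : Fin r → ℤ[X]) : Prop :=
  ∃ c : ℕ, ∀ (N : ℕ) (a b : Fin r → ℕ),
    (p : Zt p z) ^ (N + c) ∣ vl p z (∏ k, P k ^ a k - ∏ k, P k ^ b k) →
    ∀ k, (p : ℤ) ^ N ∣ (a k : ℤ) - b k

/-- **Independence over `ℤ_p`** of the `P_k(θ)` modulo the rational numbers -/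
def IndB (p : ℕ) [Fact p.Prime] {n : ℕ} (z : Fin n → ℤ) {r : ℕ} (P : Fin r → ℤ[X]) : Prop :=
  ∃ c : ℕ, ∀ (N : ℕ) (a b : Fin r → ℕ) (s t : ℤ), IsCoprime s t →
    (p : Zt p z) ^ (N + c) ∣ vl p z (C s * ∏ k, P k ^ a k - C t * ∏ k, P k ^ b k) →
    ∀ k, (p : ℤ) ^ N ∣ (a k : ℤ) - b k

theorem sys_char {n : ℕ} (S : Sys p n) : CharZero S.R := by
  refine ⟨fun a b h => ?_⟩
  have h1 := congrArg (S.ev 0) h
  rw [map_natCast, map_natCast] at h1
  exact_mod_cast h1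

theorem sys_der {n : ℕ} (S : Sys p n) (hS : HasD S) (ρ : Fin n → ℤ) (i : Fin n) :
    ∃ d : S.R → S.R, IsD d ∧ ∀ j, d (ZZ S ρ j) = if i = j then (p : S.R) else 0 := by
  obtain ⟨d, hd, h1⟩ := hS i
  obtain ⟨δ, hδ⟩ := exists_der d hd.add hd.mul
  refine ⟨d, hd, fun j => ?_⟩
  have h2 := h1 j
  rw [← hδ] at h2
  rw [← hδ]
  rw [ZZ_apply, map_add, δ.map_intCast, zero_add, Derivation.leibniz, δ.map_natCast, smul_zero, add_zero, h2,
    smul_eq_mul]
  split_ifs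
  · rw [mul_one]
  · rw [mul_zero]

section eval

variable {n : ℕ} (S : Sys p n) (ρ : Fin n → ℤ) (z y : Fin n → ℤ)

theorem ev_gp (hz : ∀ i, z i = ρ i + (p : ℤ) ^ 2 * y i) :
    (gp (ZZ S ρ)).map (S.ev fun i => ((y i : ℤ) : ℤ_[p])) =
      (gp z).map (Int.castRingHom ℤ_[p]) := by
  rw [gp_map, gp_map]
  congr 1
  funext i
  rw [ZZ_apply, map_add, map_mul, map_intCast, map_natCast, S.ev_x, hz, eq_intCast]
  push_cast
  ring

theorem dvd_of_mul {x : ℤ_[p]} (hx : x ≠ 0) :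
    ∃ v : ℕ, ∀ N w, (p : ℤ_[p]) ^ (N + v) ∣ x * w → (p : ℤ_[p]) ^ N ∣ w := by
  obtain ⟨v, u, hu⟩ : ∃ (v : ℕ) (u : ℤ_[p]ˣ), x = u * (p : ℤ_[p]) ^ v :=
    ⟨_, _, PadicInt.unitCoeff_spec hx⟩
  refine ⟨v, fun N w h => ?_⟩
  have hp0 : (p : ℤ_[p]) ^ v ≠ 0 := pow_ne_zero _ (by exact_mod_cast hp.out.ne_zero)
  have e1 : x * w = (p : ℤ_[p]) ^ v * ((u : ℤ_[p]) * w) := by
    rw [hu]
    ring
  rw [e1, pow_add, mul_comm ((p : ℤ_[p]) ^ N)] at h
  have h1 := (mul_dvd_mul_iff_left hp0).1 h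
  exact (Units.dvd_mul_left).1 h1

end eval

end

end Pool.Agent.N924.CG
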