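import Pool.Agent.N924.CG.Cls

set_option autoImplicit false

/-! # A power series for every class -/

namespace Pool.Agent.N924.CG

open Polynomial Pool.Agent.H33R4 Pool.Agent.N924.LP

noncomputable section

variable {p : ℕ} [hp : Fact p.Prime]

theorem map_map_adj {A B C : Type} [CommRing A] [CommRing B] [CommRing C] (φ : A →+* B)
    (π : B →+* C) (F : A[X]) (h : F.map (π.comp φ) ∣ (F.map φ).map π) (x : AdjoinRoot F) :
    AdjoinRoot.map π (F.map φ) (F.map (π.comp φ)) h (AdjoinRoot.map φ F (F.map φ) dvd_rfl x) =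
      AdjoinRoot.map (π.comp φ) F (F.map (π.comp φ)) dvd_rfl x := by
  obtain ⟨Q, rfl⟩ := AdjoinRoot.mk_surjective x
  rw [adj_map_mk, adj_map_mk, adj_map_mk, Polynomial.map_map]

/-- the relation between the logarithms modulo `p ^ T` -/
theorem rel {n : ℕ} (S : Sys p n) (ρ z y : Fin n → ℤ) (hz : ∀ i, z i = ρ i + (p : ℤ) ^ 2 * y i)
    {r : ℕ} (P : Fin r → ℤ[X]) (M : ℕ) (L : Fin r → AdjoinRoot (gp (ZZ S ρ)))
    (hL : ∀ k, IsLog p ((AdjoinRoot.mk (gp (ZZ S ρ)) ((P k).map (Int.castRingHom S.R))) ^ M) (L k))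
    (a b : Fin r → ℕ) (s t : ℤ) (ls lt : ℤ_[p]) (hs : IsLog p ((s : ℤ_[p]) ^ M) ls)
    (ht : IsLog p ((t : ℤ_[p]) ^ M) lt) (T : ℕ) (hT : 1 ≤ T)
    (h : (p : Zt p z) ^ T ∣ vl p z (C s * ∏ k, P k ^ a k - C t * ∏ k, P k ^ b k))
    (φ : S.R →+* ZMod (p ^ T))
    (hφ : φ = (PadicInt.toZModPow T).comp (S.ev fun i => ((y i : ℤ) : ℤ_[p]))) :
    ∑ k, AdjoinRoot.of ((gp (ZZ S ρ)).map φ) ((((a k : ℤ) - b k : ℤ)) : ZMod (p ^ T)) *
      AdjoinRoot.map φ (gp (ZZ S ρ)) ((gp (ZZ S ρ)).map φ) dvd_rfl (L k) +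
      AdjoinRoot.of ((gp (ZZ S ρ)).map φ) (PadicInt.toZModPow T (ls - lt)) = 0 := by
  subst hφ
  set ev := S.ev fun i => ((y i : ℤ) : ℤ_[p]) with hev
  have hF : (gp (ZZ S ρ)).map ev = (gp z).map (Int.castRingHom ℤ_[p]) := ev_gp S ρ z y hz
  have hB : PGood p (AdjoinRoot ((gp (ZZ S ρ)).map ev)) :=
    good2_proof p _ _ ((gp_monic _).map _) (good1_proof.1 p)
  obtain ⟨u, hu⟩ : ∃ u : Fin r → AdjoinRoot ((gp (ZZ S ρ)).map ev), u = fun k =>
    AdjoinRoot.mk _ ((P k).map (Int.castRingHom ℤ_[p])) := ⟨_, rfl⟩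
  have h1 : (p : AdjoinRoot ((gp (ZZ S ρ)).map ev)) ^ T ∣
      s * ∏ k, u k ^ a k - t * ∏ k, u k ^ b k := by
    unfold vl Zt at h
    rw [← hF] at h
    have e1 : ∀ c : Fin r → ℕ, AdjoinRoot.mk ((gp (ZZ S ρ)).map ev)
        ((∏ k, P k ^ c k).map (Int.castRingHom ℤ_[p])) = ∏ k, u k ^ c k := by
      intro c
      rw [Polynomial.map_prod, map_prod, hu]
      refine Finset.prod_congr rfl fun k _ => ?_
      rw [Polynomial.map_pow, map_pow]
    have e2 : ∀ s : ℤ, AdjoinRoot.mk ((gp (ZZ S ρ)).map ev)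
        ((C s).map (Int.castRingHom ℤ_[p])) = (s : AdjoinRoot ((gp (ZZ S ρ)).map ev)) := by
      intro s
      rw [Polynomial.map_C, AdjoinRoot.mk_C, eq_intCast (Int.castRingHom ℤ_[p]), map_intCast]
    rw [Polynomial.map_sub, Polynomial.map_mul, Polynomial.map_mul, map_sub, map_mul, map_mul, e1,
      e1, e2, e2] at h
    exact h
  let l : Fin r → AdjoinRoot ((gp (ZZ S ρ)).map ev) := fun k =>
    AdjoinRoot.map ev (gp (ZZ S ρ)) ((gp (ZZ S ρ)).map ev) dvd_rfl (L k)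
  have hl : ∀ k, IsLog p (u k ^ M) (l k) := by
    intro k
    have h3 := (logB_proof p hp.out _).2.2.2.1 _
      (AdjoinRoot.map ev (gp (ZZ S ρ)) ((gp (ZZ S ρ)).map ev) dvd_rfl) _ _ (hL k)
    rw [map_pow, adj_map_mk, Polynomial.map_map] at h3
    have e1 : ev.comp (Int.castRingHom S.R) = Int.castRingHom ℤ_[p] := RingHom.ext_int _ _
    rw [e1] at h3
    rw [hu]
    exact h3
  have hy : ∀ (c : Fin r → ℕ) (s : ℤ) (ls : ℤ_[p]), IsLog p ((s : ℤ_[p]) ^ M) ls →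
      IsLog p ((s * ∏ k, u k ^ c k) ^ M) (AdjoinRoot.of ((gp (ZZ S ρ)).map ev) ls +
      ∑ k, (c k : AdjoinRoot ((gp (ZZ S ρ)).map ev)) * l k) := by
    intro c s ls hs
    have h3 := log_prod Finset.univ _ _ hl c
    have h4 := (logB_proof p hp.out _).2.2.2.1 _ (AdjoinRoot.of ((gp (ZZ S ρ)).map ev)) _ _ hs
    rw [map_pow, map_intCast] at h4
    have e1 : (s * ∏ k, u k ^ c k) ^ M = (s : AdjoinRoot ((gp (ZZ S ρ)).map ev)) ^ M *
        ∏ k, (u k ^ M) ^ c k := by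
      rw [mul_pow, ← Finset.prod_pow]
      congr 1
      refine Finset.prod_congr rfl fun k _ => ?_
      rw [← pow_mul, ← pow_mul, mul_comm]
    rw [e1]
    exact (logB_proof p hp.out _).2.1 _ _ _ _ h4 h3
  have h5 := log_cong hB (hy a s ls hs) (hy b t lt ht) hT (h1.trans (sub_dvd_pow_sub_pow _ _ M))
  let χ : AdjoinRoot ((gp (ZZ S ρ)).map ev) →+*
      AdjoinRoot ((gp (ZZ S ρ)).map ((PadicInt.toZModPow T).comp ev)) :=
    AdjoinRoot.map (PadicInt.toZModPow T) _ _ (by rw [Polynomial.map_map])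
  have hχ : ∀ x, χ (AdjoinRoot.map ev (gp (ZZ S ρ)) ((gp (ZZ S ρ)).map ev) dvd_rfl x) =
      AdjoinRoot.map ((PadicInt.toZModPow T).comp ev) (gp (ZZ S ρ)) _ dvd_rfl x :=
    fun x => map_map_adj _ _ _ _ x
  have hχof : ∀ x, χ (AdjoinRoot.of _ x) = AdjoinRoot.of _ (PadicInt.toZModPow T x) := fun x =>
    AdjoinRoot.map_of _ _ _ _ _
  have h6 := map_dvd χ h5
  have h7 : χ ((p : AdjoinRoot ((gp (ZZ S ρ)).map ev)) ^ T) = 0 := by
    rw [map_pow, map_natCast]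
    have h8 : ((p : ZMod (p ^ T))) ^ T = 0 := by
      have := ZMod.natCast_self (p ^ T)
      rwa [Nat.cast_pow] at this
    have h9 := congrArg (AdjoinRoot.of ((gp (ZZ S ρ)).map ((PadicInt.toZModPow T).comp ev))) h8
    rw [map_pow, map_natCast, map_zero] at h9
    exact h9
  rw [h7, zero_dvd_iff, map_sub, map_add, map_add, map_sum, map_sum, hχof, hχof] at h6
  simp only [map_mul, map_natCast, hχ, l] at h6
  have h8 : ∀ k, AdjoinRoot.of ((gp (ZZ S ρ)).map ((PadicInt.toZModPow T).comp ev))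
      ((((a k : ℤ) - b k : ℤ)) : ZMod (p ^ T)) =
      (a k : AdjoinRoot ((gp (ZZ S ρ)).map ((PadicInt.toZModPow T).comp ev))) - b k := by
    intro k
    push_cast
    rw [map_sub, map_natCast, map_natCast]
  simp only [h8, sub_mul, map_sub]
  rw [Finset.sum_sub_distrib]
  linear_combination h6

/-- from the dual element to divisibility -/
theorem fin_dvd {x : ℤ_[p]} {v : ℕ}
    (hv : ∀ N w, (p : ℤ_[p]) ^ (N + v) ∣ x * w → (p : ℤ_[p]) ^ N ∣ w) (N : ℕ) (m : ℤ)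
    (h : PadicInt.toZModPow (N + (v + 1)) x * (m : ZMod (p ^ (N + (v + 1)))) = 0) :
    (p : ℤ) ^ N ∣ m := by
  have h1 : PadicInt.toZModPow (N + (v + 1)) (x * (m : ℤ_[p])) = 0 := by
    rw [map_mul, map_intCast]
    exact h
  rw [← RingHom.mem_ker, PadicInt.ker_toZModPow, Ideal.mem_span_singleton] at h1
  have h2 := hv (N + 1) _ (by
    have e : N + 1 + v = N + (v + 1) := by ring
    rw [e]
    exact h1)
  have h3 : (p : ℤ_[p]) ^ N ∣ (m : ℤ_[p]) := (pow_dvd_pow _ (Nat.le_succ N)).trans h2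
  rw [← norm_le_iff, PadicInt.norm_int_le_pow_iff_dvd] at h3
  exact_mod_cast h3

/-- **One class**, in `(K ⊗ ℚ_p)ˣ`. -/
theorem clsA {n : ℕ} (S : Sys p n) (hS : HasD S) {r : ℕ} (hr : r ≤ n) (P : Fin r → ℤ[X])
    (hP : LinearIndependent ℤ (num P)) (ρ : Fin n → ℤ) (hcop : ∀ k, Cop p ρ (P k)) :
    ∃ h : S.R, h ≠ 0 ∧ ∀ z y : Fin n → ℤ, (∀ i, z i = ρ i + (p : ℤ) ^ 2 * y i) →
      ¬ IndA p z P → S.ev (fun i => ((y i : ℤ) : ℤ_[p])) h = 0 := by
  have _ := sys_char S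
  obtain ⟨M, hM, -, hMu⟩ := exists_exp S ρ P hcop
  have hgood : PGood p (AdjoinRoot (gp (ZZ S ρ))) := good2_proof p _ _ (gp_monic _) S.good
  choose L hL using fun k => logEx_proof p hp.out _ hgood _ (hMu k)
  obtain ⟨h, h0, hh⟩ := dual_proof S.R (gp (ZZ S ρ)) (gp_monic _) r L
    (indepA p hp.out S.R S.good (ZZ S ρ) (sys_der S hS ρ) hr P hP M hM L hL)
  refine ⟨h, h0, fun z y hz hbad => ?_⟩
  by_contra hne
  obtain ⟨v, hv⟩ := dvd_of_mul hne
  apply hbad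
  refine ⟨v + 1, fun N a b hdvd k => ?_⟩
  have h1l : IsLog p (((1 : ℤ) : ℤ_[p]) ^ M) 0 := by
    rw [Int.cast_one, one_pow]
    exact (logB_proof p hp.out _).1
  have h1 := rel S ρ z y hz P M L hL a b 1 1 0 0 h1l h1l (N + (v + 1)) (by omega) (by
    rw [C_1, one_mul, one_mul]
    exact hdvd) _ rfl
  rw [sub_zero, map_zero, map_zero, add_zero] at h1
  exact fin_dvd hv N _ (hh _ _ _ h1 k)

/-- in `ℤ_p[θ]` the class of a value prime to `p` is a unit modulo `p` -/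
theorem not_dvd {n : ℕ} (hn : 0 < n) (S : Sys p n) (ρ z y : Fin n → ℤ)
    (hz : ∀ i, z i = ρ i + (p : ℤ) ^ 2 * y i) {r : ℕ} (P : Fin r → ℤ[X]) (M : ℕ)
    (hM : 0 < M) (hMu : ∀ k, (p : AdjoinRoot (gp (ZZ S ρ))) ∣
      (AdjoinRoot.mk (gp (ZZ S ρ)) ((P k).map (Int.castRingHom S.R))) ^ M - 1)
    (a : Fin r → ℕ) (s : ℤ) (hs : ¬ (p : ℤ) ∣ s) : ¬ (p : Zt p z) ∣ vl p z (C s * ∏ k, P k ^ a k) := by
  intro h
  set ev := S.ev fun i => ((y i : ℤ) : ℤ_[p]) with hev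
  have hF : (gp (ZZ S ρ)).map ev = (gp z).map (Int.castRingHom ℤ_[p]) := ev_gp S ρ z y hz
  have hB : PGood p (AdjoinRoot ((gp (ZZ S ρ)).map ev)) :=
    good2_proof p _ _ ((gp_monic _).map _) (good1_proof.1 p)
  unfold vl Zt at h
  rw [← hF, Polynomial.map_mul, map_mul, Polynomial.map_C, AdjoinRoot.mk_C, Polynomial.map_prod,
    map_prod, eq_intCast (Int.castRingHom ℤ_[p])] at h
  -- the number `s` is a unit
  have hsu : IsUnit (s : ℤ_[p]) := by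
    rw [PadicInt.isUnit_iff]
    by_contra hne
    have h1 : ‖(s : ℤ_[p])‖ < 1 := lt_of_le_of_ne (PadicInt.norm_le_one _) hne
    exact hs (PadicInt.norm_int_lt_one_iff_dvd s |>.1 h1)
  obtain ⟨s', hs'⟩ := hsu.exists_left_inv
  have h1 : (p : AdjoinRoot ((gp (ZZ S ρ)).map ev)) ∣
      ∏ k, AdjoinRoot.mk ((gp (ZZ S ρ)).map ev) ((P k ^ a k).map (Int.castRingHom ℤ_[p])) := by
    have h2 := h.mul_left (AdjoinRoot.of _ s')
    rw [← mul_assoc, ← map_mul, hs', map_one, one_mul] at h2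
    exact h2
  have h2 : (p : AdjoinRoot ((gp (ZZ S ρ)).map ev)) ∣
      (∏ k, AdjoinRoot.mk ((gp (ZZ S ρ)).map ev) ((P k ^ a k).map (Int.castRingHom ℤ_[p]))) ^ M :=
    h1.trans (dvd_pow_self _ hM.ne')
  let I : Ideal (AdjoinRoot ((gp (ZZ S ρ)).map ev)) :=
    Ideal.span {((p : ℕ) : AdjoinRoot ((gp (ZZ S ρ)).map ev))}
  have h3 : ∀ k, Ideal.Quotient.mk I ((AdjoinRoot.mk ((gp (ZZ S ρ)).map ev)
      ((P k).map (Int.castRingHom ℤ_[p]))) ^ M) = 1 := by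
    intro k
    have h5 := map_dvd (AdjoinRoot.map ev (gp (ZZ S ρ)) ((gp (ZZ S ρ)).map ev) dvd_rfl) (hMu k)
    rw [map_natCast, map_sub, map_one, map_pow, adj_map_mk, Polynomial.map_map] at h5
    have e1 : ev.comp (Int.castRingHom S.R) = Int.castRingHom ℤ_[p] := RingHom.ext_int _ _
    rw [e1] at h5
    rw [← sub_eq_zero, ← map_one (Ideal.Quotient.mk I), ← map_sub,
      Ideal.Quotient.eq_zero_iff_mem]
    exact Ideal.mem_span_singleton.2 h5
  have h4 : Ideal.Quotient.mk I ((∏ k, AdjoinRoot.mk ((gp (ZZ S ρ)).map ev)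
      ((P k ^ a k).map (Int.castRingHom ℤ_[p]))) ^ M) = 1 := by
    rw [← Finset.prod_pow, map_prod]
    refine Finset.prod_eq_one fun k _ => ?_
    have h7 := h3 k
    rw [map_pow] at h7
    rw [Polynomial.map_pow, map_pow, map_pow, map_pow, ← pow_mul, mul_comm, pow_mul, h7, one_pow]
  have h5 : Ideal.Quotient.mk I ((∏ k, AdjoinRoot.mk ((gp (ZZ S ρ)).map ev)
      ((P k ^ a k).map (Int.castRingHom ℤ_[p]))) ^ M) = 0 :=
    Ideal.Quotient.eq_zero_iff_mem.2 (Ideal.mem_span_singleton.2 h2)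
  have h6 : (p : AdjoinRoot ((gp (ZZ S ρ)).map ev)) ∣ 1 := by
    rw [h5, eq_comm, ← map_one (Ideal.Quotient.mk I), Ideal.Quotient.eq_zero_iff_mem] at h4
    exact Ideal.mem_span_singleton.1 h4
  have h7 : (1 : AdjoinRoot ((gp (ZZ S ρ)).map ev)) = 0 :=
    hB.sep _ fun k => by
      have := pow_dvd_pow_of_dvd h6 k
      rwa [one_pow] at this
  have h8 : Nontrivial (AdjoinRoot ((gp (ZZ S ρ)).map ev)) := by
    apply AdjoinRoot.nontrivial
    rw [degree_eq_natDegree ((gp_monic (ZZ S ρ)).map ev).ne_zero,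
      (gp_monic (ZZ S ρ)).natDegree_map, gp_natDegree]
    exact_mod_cast (by omega : n ≠ 0)
  exact one_ne_zero h7

/-- the logarithm of a rational integer -/
theorem int_log {s : ℤ} (hs : ¬ (p : ℤ) ∣ s) {M : ℕ} (hM : (p - 1) ∣ M) :
    ∃ l : ℤ_[p], IsLog p ((s : ℤ_[p]) ^ M) l := by
  apply logEx_proof p hp.out ℤ_[p] (good1_proof.1 p)
  obtain ⟨m, rfl⟩ := hM
  have h1 : ((s : ZMod p)) ^ (p - 1) = 1 := by
    apply ZMod.pow_card_sub_one_eq_one
    rwa [Ne, ZMod.intCast_zmod_eq_zero_iff_dvd]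
  have h2 : (p : ℤ) ∣ s ^ ((p - 1) * m) - 1 := by
    rw [← ZMod.intCast_zmod_eq_zero_iff_dvd]
    push_cast
    rw [pow_mul, h1, one_pow, sub_self]
  have h3 := map_dvd (Int.castRingHom ℤ_[p]) h2
  simpa using h3

/-- **One class**, modulo the rational numbers. -/
theorem clsB {n : ℕ} (S : Sys p n) (hS : HasD S) {r : ℕ} (hr : r < n) (P : Fin r → ℤ[X])
    (hP : LinearIndependent ℤ (num P)) (ρ : Fin n → ℤ) (hcop : ∀ k, Cop p ρ (P k)) :
    ∃ h : S.R, h ≠ 0 ∧ ∀ z y : Fin n → ℤ, (∀ i, z i = ρ i + (p : ℤ) ^ 2 * y i) →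
      ¬ IndB p z P → S.ev (fun i => ((y i : ℤ) : ℤ_[p])) h = 0 := by
  have _ := sys_char S
  obtain ⟨M, hM, hM1, hMu⟩ := exists_exp S ρ P hcop
  have hgood : PGood p (AdjoinRoot (gp (ZZ S ρ))) := good2_proof p _ _ (gp_monic _) S.good
  choose L hL using fun k => logEx_proof p hp.out _ hgood _ (hMu k)
  obtain ⟨h, h0, hh⟩ := dual_proof S.R (gp (ZZ S ρ)) (gp_monic _) (r + 1)
    (Fin.cons 1 L : Fin (r + 1) → AdjoinRoot (gp (ZZ S ρ)))
    (indepB p hp.out S.R S.good (ZZ S ρ) (sys_der S hS ρ) hr P hP M hM L hL)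
  refine ⟨h, h0, fun z y hz hbad => ?_⟩
  by_contra hne
  obtain ⟨v, hv⟩ := dvd_of_mul hne
  apply hbad
  refine ⟨v + 1, fun N a b s t hst hdvd k => ?_⟩
  have hT : 1 ≤ N + (v + 1) := by omega
  have hn : 0 < n := by omega
  have hdvd1 : (p : Zt p z) ∣ vl p z (C s * ∏ k, P k ^ a k) - vl p z (C t * ∏ k, P k ^ b k) := by
    have h2 := (dvd_pow_self (p : Zt p z) (by omega : N + (v + 1) ≠ 0)).trans hdvd
    unfold vl at h2 ⊢
    rwa [Polynomial.map_sub, map_sub] at h2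
  have hone : ∀ s : ℤ, (p : ℤ) ∣ s → ∀ a : Fin r → ℕ, (p : Zt p z) ∣ vl p z (C s * ∏ k, P k ^ a k) := by
    rintro _ ⟨s, rfl⟩ a
    unfold vl
    rw [Polynomial.map_mul, map_mul, Polynomial.map_C, AdjoinRoot.mk_C, map_mul, map_natCast,
      map_mul, map_natCast, mul_assoc]
    exact dvd_mul_right _ _
  have hps : ¬ (p : ℤ) ∣ s := by
    intro h1
    by_cases h2 : (p : ℤ) ∣ t
    · have h3 : IsUnit (p : ℤ) := hst.isUnit_of_dvd' h1 h2
      exact (Nat.prime_iff_prime_int.1 hp.out).not_unit h3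
    · apply not_dvd hn S ρ z y hz P M hM hMu b t h2
      have h3 := dvd_sub (hone s h1 a) hdvd1
      rwa [sub_sub_cancel] at h3
  have hpt : ¬ (p : ℤ) ∣ t := by
    intro h1
    apply not_dvd hn S ρ z y hz P M hM hMu a s hps
    have h3 := dvd_add (hone t h1 b) hdvd1
    rwa [add_sub_cancel] at h3
  obtain ⟨ls, hls⟩ := int_log hps hM1
  obtain ⟨lt, hlt⟩ := int_log hpt hM1
  have h1 := rel S ρ z y hz P M L hL a b s t ls lt hls hlt (N + (v + 1)) hT hdvd _ rfl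
  have h2 := hh (ZMod (p ^ (N + (v + 1)))) ((PadicInt.toZModPow (N + (v + 1))).comp
    (S.ev fun i => ((y i : ℤ) : ℤ_[p])))
    (Fin.cons (PadicInt.toZModPow (N + (v + 1)) (ls - lt)) fun k =>
      ((((a k : ℤ) - b k : ℤ)) : ZMod (p ^ (N + (v + 1))))) (by
      rw [Fin.sum_univ_succ]
      simp only [Fin.cons_zero, Fin.cons_succ, map_one, mul_one]
      linear_combination h1) k.succ
  rw [Fin.cons_succ] at h2
  exact fin_dvd hv N _ h2

end

end Pool.Agent.N924.CG
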