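import Pool.Agent.N924.LP.Sys
import Pool.Agent.H33R4.Form3
import Pool.Agent.H187R3.Alg

set_option autoImplicit false

/-! # Derivations on rings of power series and on splitting fields -/

namespace Pool.Agent.N924.CG

open Polynomial Pool.Agent.H33R4 Pool.Agent.N924.LP

noncomputable section

variable {p : ℕ} [hp : Fact p.Prime]

/-- a derivation -/
structure IsD {A : Type} [CommRing A] (d : A → A) : Prop where
  add : ∀ a b, d (a + b) = d a + d b
  mul : ∀ a b, d (a * b) = a * d b + b * d a

/-- partial derivatives -/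
def HasD {s : ℕ} (S : Sys p s) : Prop :=
  ∀ i, ∃ d : S.R → S.R, IsD d ∧ ∀ j, d (S.x j) = if i = j then 1 else 0

theorem der_ps {A : Type} [CommRing A] :
    ∃ D : PowerSeries A → PowerSeries A, IsD D ∧ D PowerSeries.X = 1 ∧
      ∀ a, D (PowerSeries.C a) = 0 :=
  ⟨fun a => PowerSeries.derivative A a,
    ⟨fun a b => map_add _ a b, fun a b => (PowerSeries.derivative A).leibniz a b⟩,
    PowerSeries.derivative_X, fun _ => PowerSeries.derivative_C⟩

theorem der_coeff {A : Type} [CommRing A] (d : A → A) (hd : IsD d) :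
    ∃ D : PowerSeries A → PowerSeries A, IsD D ∧ D PowerSeries.X = 0 ∧
      ∀ a, D (PowerSeries.C a) = PowerSeries.C (d a) := by
  classical
  obtain ⟨δ, hδ⟩ := exists_der d hd.add hd.mul
  refine ⟨fun a => PowerSeries.mk fun n => δ (PowerSeries.coeff n a), ⟨?_, ?_⟩, ?_, fun a => ?_⟩
  · intro a b
    ext n
    simp only [map_add, PowerSeries.coeff_mk]
  · intro a b
    ext n
    rw [map_add, PowerSeries.coeff_mul, PowerSeries.coeff_mul, PowerSeries.coeff_mk,
      PowerSeries.coeff_mul, map_sum, ← Finset.Nat.sum_antidiagonal_swap (n := n)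
        (f := fun q => PowerSeries.coeff q.1 b *
          PowerSeries.coeff q.2 (PowerSeries.mk fun n => δ (PowerSeries.coeff n a))),
      ← Finset.sum_add_distrib]
    refine Finset.sum_congr rfl fun q _ => ?_
    rw [Derivation.leibniz, PowerSeries.coeff_mk, Prod.fst_swap, Prod.snd_swap,
      PowerSeries.coeff_mk, smul_eq_mul, smul_eq_mul]
  · ext n
    rw [PowerSeries.coeff_mk, PowerSeries.coeff_X, map_zero]
    split_ifs
    · exact δ.map_one_eq_zero
    · exact map_zero _
  · ext n
    rw [PowerSeries.coeff_mk, PowerSeries.coeff_C, PowerSeries.coeff_C]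
    split_ifs
    · exact hδ a
    · exact map_zero _

theorem hasD_next {s : ℕ} (S : Sys p s) (h : HasD S) : HasD S.next := by
  intro i
  refine Fin.cases ?_ (fun i => ?_) i
  · obtain ⟨D, h0, h1, h2⟩ := der_ps (A := S.R)
    refine ⟨D, h0, fun j => ?_⟩
    refine Fin.cases ?_ (fun j => ?_) j
    · rw [if_pos rfl]
      exact h1
    · rw [if_neg (Fin.succ_ne_zero j).symm]
      exact h2 _
  · obtain ⟨d, hd0, hd⟩ := h i
    obtain ⟨D, h0, h1, h2⟩ := der_coeff d hd0
    refine ⟨D, h0, fun j => ?_⟩
    refine Fin.cases ?_ (fun j => ?_) j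
    · rw [if_neg (Fin.succ_ne_zero i)]
      exact h1
    · have h3 : D (S.next.x j.succ) = PowerSeries.C (d (S.x j)) := h2 _
      rw [h3, hd j]
      simp only [Fin.succ_inj]
      split_ifs
      · exact map_one (PowerSeries.C (R := S.R))
      · exact map_zero (PowerSeries.C (R := S.R))

theorem exists_sysD (p : ℕ) [Fact p.Prime] (s : ℕ) : ∃ S : Sys p s, HasD S := by
  induction s with
  | zero => exact ⟨sys0 p, fun i => i.elim0⟩
  | succ s ih =>
    obtain ⟨S, hS⟩ := ih
    exact ⟨S.next, hasD_next S hS⟩

/-- a splitting field with all derivations -/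
theorem exists_extQ (R Q W : Type) [CommRing R] [IsDomain R] [Field Q] [CharZero Q] [Algebra R Q]
    [IsFractionRing R Q] [Field W] [Algebra Q W] [FiniteDimensional Q W]
    (d : R → R) (hd : IsD d) :
    ∃ D : Derivation ℤ W W, ∀ a, D (algebraMap Q W (algebraMap R Q a)) =
      algebraMap Q W (algebraMap R Q (d a)) := by
  obtain ⟨δ, hδ⟩ := exists_der d hd.add hd.mul
  let d' : Derivation ℤ R Q := (Algebra.linearMap R Q).compDer δ
  obtain ⟨DQ, hDQ⟩ := Pool.Agent.H187R3.exists_derivation_extension (K := Q) d'
  let _ : Differential Q := ⟨DQ⟩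
  let _ : Differential W := Differential.differentialFiniteDimensional Q W
  have _ : DifferentialAlgebra Q W := Differential.differentialAlgebraFiniteDimensional
  refine ⟨Differential.deriv, fun a => ?_⟩
  have h1 : (Differential.deriv : Derivation ℤ W W) (algebraMap Q W (algebraMap R Q a)) =
      algebraMap Q W (DQ (algebraMap R Q a)) := deriv_algebraMap _
  rw [h1, hDQ, ← hδ a]
  rfl

/-- a splitting field with all derivations -/
theorem exists_ext (R : Type) [CommRing R] [IsDomain R] [CharZero R] (G : R[X]) :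
    ∃ (W : Type) (_ : Field W) (_ : CharZero W) (j : R →+* W), Function.Injective j ∧
      (G.map j).Splits ∧
      ∀ d : R → R, IsD d → ∃ D : Derivation ℤ W W, ∀ a, D (j a) = j (d a) := by
  let Q := FractionRing R
  have hQ : CharZero Q := charZero_of_injective_algebraMap (IsFractionRing.injective R Q)
  let W := SplittingField (G.map (algebraMap R Q))
  refine ⟨W, inferInstance, charZero_of_injective_algebraMap (algebraMap Q W).injective,
    (algebraMap Q W).comp (algebraMap R Q), ?_, ?_, ?_⟩
  · exact (algebraMap Q W).injective.comp (IsFractionRing.injective R Q)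
  · rw [← Polynomial.map_map]
    exact SplittingField.splits _
  · intro d hd
    obtain ⟨D, hD⟩ := exists_extQ R Q W d hd
    exact ⟨D, hD⟩

end

end Pool.Agent.N924.CG
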