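import Mathlib

set_option autoImplicit false

/-! # Determinants of functions of independent variables -/

namespace Pool.Agent.N924.CG

open Polynomial

noncomputable section

variable {W : Type} [Field W] [CharZero W]

omit [CharZero W] in
theorem der_eval (E : Derivation ℤ W W) (x : W) (Q : W[X]) (hc : ∀ i, E (Q.coeff i) = 0) :
    E (Q.eval x) = (derivative Q).eval x * E x := by
  rw [eval_eq_sum, derivative_eval, Polynomial.sum_def, Polynomial.sum_def, map_sum,
    Finset.sum_mul]
  refine Finset.sum_congr rfl fun i _ => ?_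
  rw [Derivation.leibniz, Derivation.leibniz_pow, hc]
  simp only [smul_eq_mul, nsmul_eq_mul]
  ring

/-- an element with nonzero derivative is transcendental over the constants -/
theorem poly_zero (E : Derivation ℤ W W) {x : W} (hx : E x ≠ 0) :
    ∀ (n : ℕ) (Q : W[X]), Q.natDegree ≤ n → (∀ i, E (Q.coeff i) = 0) → Q.eval x = 0 → Q = 0 := by
  intro n
  induction n with
  | zero =>
    intro Q hQ _ h0
    rw [eq_C_of_natDegree_le_zero hQ, eval_C] at h0
    rw [eq_C_of_natDegree_le_zero hQ, h0, C_0]
  | succ n ih =>
    intro Q hQ hc h0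
    have h1 : (derivative Q).eval x = 0 := by
      have h2 := der_eval E x Q hc
      rw [h0, map_zero] at h2
      exact (mul_eq_zero.1 h2.symm).resolve_right hx
    have h2 := ih (derivative Q) ((natDegree_derivative_le Q).trans (by omega)) (fun i => by
      rw [coeff_derivative, Derivation.leibniz, hc]
      have : E ((i : W) + 1) = 0 := by
        rw [map_add, E.map_one_eq_zero, E.map_natCast, add_zero]
      rw [this, smul_zero, smul_zero, add_zero]) h1
    have h3 : Q.natDegree ≤ 0 := (natDegree_eq_zero_of_derivative_eq_zero h2).le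
    rw [eq_C_of_natDegree_le_zero h3, eval_C] at h0
    rw [eq_C_of_natDegree_le_zero h3, h0, C_0]

/-- linear independence over the constants -/
theorem indep_const (E : Derivation ℤ W W) {x : W} (hx : E x ≠ 0) {r : ℕ} (N : Fin r → ℤ[X])
    (hN : LinearIndependent ℤ N) (c : Fin r → W) (hc : ∀ k, E (c k) = 0)
    (h : ∑ k, c k * aeval x (N k) = 0) : c = 0 := by
  classical
  obtain ⟨D, hD⟩ : ∃ D : ℕ, ∀ k, (N k).natDegree < D := by
    refine ⟨∑ k, (N k).natDegree + 1, fun k => ?_⟩
    have := Finset.single_le_sum (f := fun k => (N k).natDegree) (fun i _ => Nat.zero_le _)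
      (Finset.mem_univ k)
    omega
  have h1 : LinearIndependent ℤ (fun k (j : Fin D) => (N k).coeff j) := by
    rw [Fintype.linearIndependent_iff] at hN ⊢
    intro a ha
    apply hN a
    ext j
    rw [finsetSum_coeff, coeff_zero]
    by_cases hj : j < D
    · have := congrFun ha ⟨j, hj⟩
      rw [Finset.sum_apply, Pi.zero_apply] at this
      simpa using this
    · refine Finset.sum_eq_zero fun k _ => ?_
      rw [coeff_smul, coeff_eq_zero_of_natDegree_lt (by have := hD k; omega), smul_zero]
  have h2 : LinearIndependent W (fun k (j : Fin D) => (((N k).coeff j : ℤ) : W)) :=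
    (linearIndependent_algebraMap_comp_iff (R := ℤ) (S := W)).2 h1
  set Q : W[X] := ∑ k, C (c k) * (N k).map (Int.castRingHom W) with hQ
  have hco : ∀ j, Q.coeff j = ∑ k, c k * (((N k).coeff j : ℤ) : W) := by
    intro j
    rw [hQ, finsetSum_coeff]
    refine Finset.sum_congr rfl fun k _ => ?_
    rw [coeff_C_mul, coeff_map, eq_intCast]
  have h3 : Q = 0 := by
    refine poly_zero E hx Q.natDegree Q le_rfl (fun i => ?_) ?_
    · rw [hco, map_sum]
      refine Finset.sum_eq_zero fun k _ => ?_
      rw [Derivation.leibniz, hc, E.map_intCast, smul_zero, smul_zero, add_zero]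
    · rw [hQ, eval_finset_sum, ← h]
      refine Finset.sum_congr rfl fun k _ => ?_
      rw [eval_mul, eval_C, eval_map, aeval_def]
      rfl
  rw [Fintype.linearIndependent_iff] at h2
  funext k
  refine h2 c ?_ k
  funext j
  rw [Finset.sum_apply, Pi.zero_apply]
  have := hco j
  rw [h3, coeff_zero] at this
  simp only [Pi.smul_apply, smul_eq_mul]
  exact this.symm

/-- the constants -/
def cst (E : Derivation ℤ W W) : Subring W where
  carrier := {x | E x = 0}
  mul_mem' := by
    intro a b ha hb
    change E (a * b) = 0
    rw [Derivation.leibniz, show E a = 0 from ha, show E b = 0 from hb, smul_zero, smul_zero,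
      add_zero]
  one_mem' := E.map_one_eq_zero
  add_mem' := by
    intro a b ha hb
    change E (a + b) = 0
    rw [map_add, show E a = 0 from ha, show E b = 0 from hb, add_zero]
  zero_mem' := map_zero E
  neg_mem' := by
    intro a ha
    change E (-a) = 0
    rw [map_neg, show E a = 0 from ha, neg_zero]

omit [CharZero W] in
theorem det_const (E : Derivation ℤ W W) {r : ℕ} (A : Matrix (Fin r) (Fin r) W)
    (h : ∀ i j, E (A i j) = 0) : E A.det = 0 := by
  let B : Matrix (Fin r) (Fin r) (cst E) := fun i j => ⟨A i j, h i j⟩
  have h1 : A = B.map (cst E).subtype := by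
    ext i j
    rfl
  rw [h1, ← RingHom.mapMatrix_apply, ← RingHom.map_det]
  exact (B.det).2

omit [CharZero W] in
/-- **The determinant.** -/
theorem det_ne {n : ℕ} (E : Fin n → Derivation ℤ W W) : ∀ (r : ℕ) (g : Fin r → Fin n → W),
    (∀ k m j, m ≠ j → E m (g k j) = 0) →
    (∀ m (c : Fin r → W), (∀ k, E m (c k) = 0) → ∑ k, c k * E m (g k m) = 0 → c = 0) →
    ∀ (J : Fin r → Fin n), Function.Injective J → ∀ b : Fin r → W,
    (∀ k l, E (J l) (b k) = 0) → (Matrix.of fun k l => g k (J l) - b k).det ≠ 0 := by
  intro r
  induction r with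
  | zero =>
    intro g _ _ J _ b _
    rw [Matrix.det_fin_zero]
    exact one_ne_zero
  | succ r ih =>
    intro g hg hind J hJ b hb h0
    set A : Matrix (Fin (r + 1)) (Fin (r + 1)) W := Matrix.of fun k l => g k (J l) - b k with hA
    set q := J (Fin.last r) with hq
    set c : Fin (r + 1) → W := fun k => (-1) ^ ((k : ℕ) + (Fin.last r : Fin (r + 1)) : ℕ) *
      (A.submatrix k.succAbove (Fin.last r).succAbove).det with hc
    have hdet : ∑ k, c k * A k (Fin.last r) = 0 := by
      rw [← h0, Matrix.det_succ_column A (Fin.last r)]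
      refine Finset.sum_congr rfl fun k _ => ?_
      rw [hc]
      ring
    have hJq : ∀ l : Fin r, q ≠ J ((Fin.last r).succAbove l) := by
      intro l h
      exact Fin.succAbove_ne (Fin.last r) l (hJ h.symm)
    have hEc : ∀ k, E q (c k) = 0 := by
      intro k
      rw [hc]
      simp only
      rw [Derivation.leibniz, det_const]
      · have h1 : E q ((-1 : W) ^ ((k : ℕ) + (Fin.last r : Fin (r + 1)) : ℕ)) = 0 := by
          rw [Derivation.leibniz_pow, map_neg, (E q).map_one_eq_zero, neg_zero, smul_zero,
            smul_zero]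
        rw [h1, smul_zero, smul_zero, add_zero]
      · intro i j
        rw [Matrix.submatrix_apply, hA, Matrix.of_apply, map_sub, hg _ _ _ (hJq j),
          hb, sub_zero]
    have h2 : ∑ k, c k * E q (g k q) = 0 := by
      have h3 := congrArg (E q) hdet
      rw [map_zero, map_sum] at h3
      rw [← h3]
      refine Finset.sum_congr rfl fun k _ => ?_
      rw [Derivation.leibniz, hEc, smul_zero, add_zero, smul_eq_mul, hA, Matrix.of_apply, map_sub,
        hb, sub_zero]
    have h4 := congrFun (hind q c hEc h2) (Fin.last r)
    rw [Pi.zero_apply, hc] at h4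
    simp only at h4
    have h5 := (mul_eq_zero.1 h4).resolve_left (pow_ne_zero _ (neg_ne_zero.2 one_ne_zero))
    refine ih (fun k j => g k.castSucc j) (fun k m j h => hg _ _ _ h) ?_
      (fun l => J l.castSucc) (fun l l' h => Fin.castSucc_injective _ (hJ h))
      (fun k => b k.castSucc) (fun k l => hb _ _) ?_
    · intro m c' hc' hs
      have h6 := hind m (Fin.snoc c' 0) (fun k => by
        refine Fin.lastCases ?_ (fun k => ?_) k
        · rw [Fin.snoc_last, map_zero]
        · rw [Fin.snoc_castSucc]
          exact hc' k) (by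
        rw [Fin.sum_univ_castSucc]
        simp only [Fin.snoc_castSucc, Fin.snoc_last, zero_mul, add_zero]
        exact hs)
      funext k
      have h7 := congrFun h6 k.castSucc
      rw [Fin.snoc_castSucc] at h7
      exact h7
    · rw [← h5]
      congr 1
      ext k l
      rw [Matrix.submatrix_apply, hA, Matrix.of_apply, Matrix.of_apply, Fin.succAbove_last]

end

end Pool.Agent.N924.CG
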