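import Pool.Agent.N924.CG.Der
import Pool.Agent.N924.CG.Det
import Pool.Agent.H33R4.Final

set_option autoImplicit false

/-! # Independence of the logarithms of values of polynomials at the generic root -/

namespace Pool.Agent.N924.CG

open Polynomial Pool.Agent.H33R4 Pool.Agent.N924.LP

noncomputable section

/-- the monic polynomial with given coefficients -/
def gp {B : Type} [CommRing B] {n : ℕ} (z : Fin n → B) : B[X] :=
  X ^ n + ∑ i, C (z i) * X ^ (i : ℕ)

theorem gp_map {A B : Type} [CommRing A] [CommRing B] (φ : A →+* B) {n : ℕ} (z : Fin n → A) :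
    (gp z).map φ = gp fun i => φ (z i) := by
  unfold gp
  rw [Polynomial.map_add, Polynomial.map_pow, map_X, Polynomial.map_sum]
  simp only [Polynomial.map_mul, map_C, Polynomial.map_pow, map_X]

theorem gp_low {B : Type} [CommRing B] [Nontrivial B] {n : ℕ} (z : Fin n → B) :
    (∑ i, C (z i) * X ^ (i : ℕ) : B[X]).degree < (X ^ n : B[X]).degree := by
  rw [degree_X_pow]
  refine (degree_sum_le _ _).trans_lt ?_
  rw [Finset.sup_lt_iff (by exact WithBot.bot_lt_coe _)]
  intro i _
  exact (degree_C_mul_X_pow_le _ _).trans_lt (by exact_mod_cast i.2)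

theorem gp_monic {B : Type} [CommRing B] {n : ℕ} (z : Fin n → B) : (gp z).Monic := by
  nontriviality B
  exact (monic_X_pow n).add_of_left (gp_low z)

theorem gp_natDegree {B : Type} [CommRing B] [Nontrivial B] {n : ℕ} (z : Fin n → B) :
    (gp z).natDegree = n := by
  unfold gp
  rw [natDegree_add_eq_left_of_degree_lt (gp_low z), natDegree_X_pow]

theorem der_gp {W : Type} [Field W] (E : Derivation ℤ W W) {n : ℕ} (Z : Fin n → W) (x : W) :
    E ((gp Z).eval x) = (derivative (gp Z)).eval x * E x + ∑ i, E (Z i) * x ^ (i : ℕ) := by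
  unfold gp
  rw [eval_add, eval_pow, eval_X, eval_finsetSum, map_add, Derivation.leibniz_pow, map_sum,
    derivative_add, derivative_X_pow, derivative_sum, eval_add, eval_finsetSum, add_mul,
    Finset.sum_mul, add_assoc, ← Finset.sum_add_distrib]
  congr 1
  · simp
    ring
  · refine Finset.sum_congr rfl fun i _ => ?_
    rw [eval_mul, eval_C, eval_pow, eval_X, Derivation.leibniz, Derivation.leibniz_pow,
      derivative_C_mul_X_pow]
    simp
    ring

/-- the derivations with respect to the roots -/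
theorem root_der {W : Type} [Field W] {n : ℕ} (hn : 0 < n) (p : ℕ) (hp : (p : W) ≠ 0)
    (D : Fin n → Derivation ℤ W W) (Z : Fin n → W)
    (hD : ∀ i l, D i (Z l) = if i = l then (p : W) else 0)
    (θ : Fin n → W) (hθ : gp Z = ∏ j, (X - C (θ j))) :
    (∀ j, (derivative (gp Z)).eval (θ j) ≠ 0) ∧
    ∃ (c : Fin n → Fin n → W) (E : Fin n → Derivation ℤ W W),
      (∀ m a, E m a = ∑ i, c m i * D i a) ∧ ∀ m j, E m (θ j) = if m = j then (p : W) else 0 := by
  classical
  have hroot : ∀ j, (gp Z).eval (θ j) = 0 := by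
    intro j
    rw [hθ, eval_prod]
    exact Finset.prod_eq_zero (Finset.mem_univ j) (by simp)
  have hF : ∀ j, (derivative (gp Z)).eval (θ j) ≠ 0 := by
    intro j h0
    have h1 := der_gp (D ⟨0, hn⟩) Z (θ j)
    rw [hroot, map_zero, h0, zero_mul, zero_add, Finset.sum_eq_single ⟨0, hn⟩] at h1
    · rw [hD, if_pos rfl, pow_zero, mul_one] at h1
      exact hp h1.symm
    · intro i _ hi
      rw [hD, if_neg (Ne.symm hi), zero_mul]
    · intro h
      exact absurd (Finset.mem_univ _) h
  refine ⟨hF, ?_⟩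
  let q : Fin n → W[X] := fun m => - ∏ j ∈ Finset.univ.erase m, (X - C (θ j))
  have hq : ∀ m, (q m).natDegree < n := by
    intro m
    change (- ∏ j ∈ Finset.univ.erase m, (X - C (θ j))).natDegree < n
    rw [natDegree_neg, natDegree_prod_of_monic _ _ fun j _ => monic_X_sub_C _]
    simp only [natDegree_X_sub_C, Finset.sum_const, smul_eq_mul, mul_one]
    rw [Finset.card_erase_of_mem (Finset.mem_univ m), Finset.card_univ, Fintype.card_fin]
    omega
  choose E hE using fun m => exists_der (Q := W) (fun a => ∑ i : Fin n, (q m).coeff (i : ℕ) * D i a)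
    (fun a b => by
      rw [← Finset.sum_add_distrib]
      refine Finset.sum_congr rfl fun i _ => ?_
      rw [map_add, mul_add])
    (fun a b => by
      rw [Finset.mul_sum, Finset.mul_sum, ← Finset.sum_add_distrib]
      refine Finset.sum_congr rfl fun i _ => ?_
      rw [Derivation.leibniz, smul_eq_mul, smul_eq_mul]
      ring)
  refine ⟨fun m i => (q m).coeff (i : ℕ), E, hE, ?_⟩
  have hZ : ∀ m (l : Fin n), E m (Z l) = (q m).coeff (l : ℕ) * p := by
    intro m l
    rw [hE, Finset.sum_eq_single l]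
    · rw [hD, if_pos rfl]
    · intro i _ hi
      rw [hD, if_neg hi, mul_zero]
    · intro h
      exact absurd (Finset.mem_univ _) h
  have hs : ∀ m x, ∑ i, E m (Z i) * x ^ (i : ℕ) = (q m).eval x * p := by
    intro m x
    rw [eval_eq_sum_range' (hq m), Finset.sum_range, Finset.sum_mul]
    refine Finset.sum_congr rfl fun i _ => ?_
    rw [hZ]
    ring
  have key : ∀ m j, 0 = (derivative (gp Z)).eval (θ j) * E m (θ j) + (q m).eval (θ j) * p := by
    intro m j
    rw [← hs, ← der_gp, hroot, map_zero]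
  have hqe : ∀ m x, (q m).eval x = - ∏ j ∈ Finset.univ.erase m, (x - θ j) := by
    intro m x
    change (- ∏ j ∈ Finset.univ.erase m, (X - C (θ j))).eval x = _
    rw [eval_neg, eval_prod]
    simp
  intro m j
  have h1 := key m j
  split_ifs with h
  · subst h
    have h2 : gp Z = (X - C (θ m)) * (- q m) := by
      rw [hθ]
      change _ = _ * (- - ∏ j ∈ Finset.univ.erase m, (X - C (θ j)))
      rw [neg_neg, Finset.mul_prod_erase Finset.univ (fun j => X - C (θ j)) (Finset.mem_univ m)]
    have h3 : (derivative (gp Z)).eval (θ m) = - (q m).eval (θ m) := by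
      rw [h2, derivative_mul, eval_add, eval_mul, eval_mul, derivative_X_sub_C, eval_one, eval_sub,
        eval_X, eval_C, sub_self, zero_mul, add_zero, one_mul, eval_neg]
    have h4 := hF m
    rw [h3] at h1 h4
    have h5 : (- (q m).eval (θ m)) * (E m (θ m) - p) = 0 := by
      linear_combination -h1
    have h6 := (mul_eq_zero.1 h5).resolve_left h4
    exact sub_eq_zero.1 h6
  · have h2 : (q m).eval (θ j) = 0 := by
      rw [hqe, Finset.prod_eq_zero (Finset.mem_erase.2 ⟨Ne.symm h, Finset.mem_univ j⟩)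
        (sub_self _), neg_zero]
    rw [h2, zero_mul, add_zero] at h1
    exact (mul_eq_zero.1 h1.symm).resolve_left (hF j)

/-- the numerators of the logarithmic derivatives -/
def num {r : ℕ} (P : Fin r → ℤ[X]) (k : Fin r) : ℤ[X] :=
  derivative (P k) * ∏ l ∈ Finset.univ.erase k, P l

/-- the matrix of the logarithms -/
theorem exists_mat (p : ℕ) (hp : p.Prime) (R : Type) [CommRing R] [IsDomain R] [CharZero R]
    (hR : PGood p R) {n : ℕ} (hn : 0 < n) (Z : Fin n → R)
    (hd : ∀ i, ∃ d : R → R, IsD d ∧ ∀ j, d (Z j) = if i = j then (p : R) else 0)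
    {r : ℕ} (P : Fin r → ℤ[X]) (hP : LinearIndependent ℤ (num P)) (M : ℕ) (hM : 0 < M)
    (L : Fin r → AdjoinRoot (gp Z))
    (hL : ∀ k, IsLog p ((AdjoinRoot.mk (gp Z) ((P k).map (Int.castRingHom R))) ^ M) (L k)) :
    ∃ (W : Type) (_ : Field W) (j : R →+* W) (σ : Fin n → (AdjoinRoot (gp Z) →+* W)),
      Function.Injective j ∧ (∀ l a, σ l (AdjoinRoot.of _ a) = j a) ∧
      ∀ (J : Fin r → Fin n), Function.Injective J → ∀ b : Fin r → W,
        (b = 0 ∨ ∃ e, (∀ l, J l ≠ e) ∧ ∀ k, b k = σ e (L k)) →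
        (Matrix.of fun k l => σ (J l) (L k) - b k).det ≠ 0 := by
  classical
  obtain ⟨W, _, _, j, hj, hsp, hext⟩ := exists_ext R (gp Z)
  have hpW : (p : W) ≠ 0 := by exact_mod_cast hp.ne_zero
  choose d hd0 hd1 using hd
  choose D hD using fun i => hext (d i) (hd0 i)
  have hmap : (gp Z).map j = gp fun i => j (Z i) := gp_map j Z
  have hcard : ((gp Z).map j).roots.card = n := by
    rw [← hsp.natDegree_eq_card_roots, hmap, gp_natDegree]
  obtain ⟨θ, hθ⟩ := exists_enum _ n hcard
  have hprod : (gp Z).map j = ∏ l, (X - C (θ l)) := by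
    have h2 := hsp.eq_prod_roots_of_monic ((gp_monic Z).map j)
    rw [h2, hθ, Multiset.map_map]
    rfl
  have hprod' : gp (fun i => j (Z i)) = ∏ l, (X - C (θ l)) := by rw [← hmap, hprod]
  have hDZ : ∀ i l, D i (j (Z l)) = if i = l then (p : W) else 0 := by
    intro i l
    rw [hD, hd1]
    split_ifs
    · exact map_natCast j p
    · exact map_zero j
  obtain ⟨hF, c, E, hE, hEθ⟩ := root_der hn p hpW D (fun i => j (Z i)) hDZ θ hprod'
  have hsep : ((gp Z).map j).Separable := by
    rw [hprod]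
    refine separable_prod_X_sub_C_iff.2 fun a b hab => ?_
    by_contra hne
    have h1 := hEθ a a
    rw [if_pos rfl, hab, hEθ, if_neg hne] at h1
    exact hpW h1.symm
  have hev : ∀ l, (gp Z).eval₂ j (θ l) = 0 := by
    intro l
    rw [← Polynomial.eval_map, hprod, eval_prod]
    exact Finset.prod_eq_zero (Finset.mem_univ l) (by simp)
  let σ : Fin n → (AdjoinRoot (gp Z) →+* W) := fun l => AdjoinRoot.lift j (θ l) (hev l)
  have hσof : ∀ l a, σ l (AdjoinRoot.of _ a) = j a := fun l a => AdjoinRoot.lift_of _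
  have hσmk : ∀ l (P : ℤ[X]), σ l (AdjoinRoot.mk _ (P.map (Int.castRingHom R))) =
      aeval (θ l) P := by
    intro l P
    change AdjoinRoot.lift j (θ l) (hev l) _ = _
    rw [AdjoinRoot.lift_mk, Polynomial.eval₂_map, aeval_def]
    congr 1
    exact RingHom.ext_int _ _
  have hnum0 : ∀ k, num P k ≠ 0 := fun k => hP.ne_zero k
  have hP0 : ∀ k, P k ≠ 0 := by
    intro k h0
    apply hnum0 k
    unfold num
    rw [h0, derivative_zero, zero_mul]
  have hEθ0 : ∀ m, E m (θ m) ≠ 0 := by
    intro m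
    rw [hEθ, if_pos rfl]
    exact hpW
  have hne : ∀ k l, aeval (θ l) (P k) ≠ 0 := by
    intro k l h0
    have h1 := poly_zero (E l) (hEθ0 l) _ ((P k).map (Int.castRingHom W)) le_rfl (fun i => by
      rw [coeff_map, eq_intCast]
      exact (E l).map_intCast _) (by
      rw [eval_map]
      exact h0)
    exact hP0 k ((Polynomial.map_eq_zero_iff (RingHom.injective_int _)).1 h1)
  have hM0 : (M : W) ≠ 0 := by exact_mod_cast hM.ne'
  have hlog : ∀ i k l, aeval (θ l) (P k) * D i (σ l (L k)) = M * D i (aeval (θ l) (P k)) := by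
    intro i k l
    obtain ⟨d', hd'⟩ := exists_der (d i) (hd0 i).add (hd0 i).mul
    have h2 := dLog_of logB_proof good2_proof derL_proof p hp R (gp Z) (gp_monic Z) hR
      d' W j hj hsep (D i) (fun a => by rw [hd']; exact hD i a) (σ l) (hσof l) _ _ (hL k)
    rw [map_pow, hσmk, Derivation.leibniz_pow] at h2
    simp only [smul_eq_mul, nsmul_eq_mul] at h2
    have h3 := hne k l
    have h4 : (aeval (θ l) (P k)) ^ M = (aeval (θ l) (P k)) ^ (M - 1) * aeval (θ l) (P k) := by
      rw [← pow_succ]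
      congr 1
      omega
    rw [h4] at h2
    have h5 : (aeval (θ l) (P k)) ^ (M - 1) ≠ 0 := pow_ne_zero _ h3
    apply mul_left_cancel₀ h5
    linear_combination -h2
  have hElog : ∀ m k l, aeval (θ l) (P k) * E m (σ l (L k)) =
      M * (aeval (θ l) (derivative (P k)) * E m (θ l)) := by
    intro m k l
    have h1 : E m (aeval (θ l) (P k)) = aeval (θ l) (derivative (P k)) * E m (θ l) := by
      rw [Derivation.map_aeval, smul_eq_mul]
    rw [← h1, hE, hE, Finset.mul_sum, Finset.mul_sum]
    refine Finset.sum_congr rfl fun i _ => ?_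
    linear_combination (c m i) * hlog i k l
  refine ⟨W, inferInstance, j, σ, hj, hσof, fun J hJ b hb => ?_⟩
  refine det_ne E r (fun k l => σ l (L k)) ?_ ?_ J hJ b ?_
  · intro k m l hml
    have h1 := hElog m k l
    rw [hEθ, if_neg hml, mul_zero, mul_zero] at h1
    exact (mul_eq_zero.1 h1).resolve_left (hne k l)
  · intro m x hx hs
    have h1 : ∀ k, E m (σ m (L k)) * ∏ l, aeval (θ m) (P l) = M * p * aeval (θ m) (num P k) := by
      intro k
      rw [← Finset.mul_prod_erase Finset.univ (fun l => aeval (θ m) (P l)) (Finset.mem_univ k)]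
      have h2 := hElog m k m
      rw [hEθ, if_pos rfl] at h2
      unfold num
      rw [map_mul, map_prod]
      linear_combination (∏ l ∈ Finset.univ.erase k, aeval (θ m) (P l)) * h2
    refine indep_const (E m) (hEθ0 m) (num P) hP x hx ?_
    have h3 : (M : W) * p * ∑ k, x k * aeval (θ m) (num P k) = 0 := by
      rw [Finset.mul_sum]
      have h4 : ∀ k, (M : W) * p * (x k * aeval (θ m) (num P k)) =
          (x k * E m (σ m (L k))) * ∏ l, aeval (θ m) (P l) := by
        intro k
        linear_combination -(x k) * h1 k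
      rw [Finset.sum_congr rfl fun k _ => h4 k, ← Finset.sum_mul, hs, zero_mul]
    exact (mul_eq_zero.1 h3).resolve_left (mul_ne_zero hM0 hpW)
  · intro k l
    rcases hb with rfl | ⟨e, he, hb⟩
    · rw [Pi.zero_apply, map_zero]
    · rw [hb]
      have h1 := hElog (J l) k e
      rw [hEθ, if_neg (he l), mul_zero, mul_zero] at h1
      exact (mul_eq_zero.1 h1).resolve_left (hne k e)

/-- independence in `(K ⊗ ℚ_p)ˣ` -/
theorem indepA (p : ℕ) (hp : p.Prime) (R : Type) [CommRing R] [IsDomain R] [CharZero R]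
    (hR : PGood p R) {n : ℕ} (Z : Fin n → R)
    (hd : ∀ i, ∃ d : R → R, IsD d ∧ ∀ j, d (Z j) = if i = j then (p : R) else 0)
    {r : ℕ} (hr : r ≤ n) (P : Fin r → ℤ[X]) (hP : LinearIndependent ℤ (num P)) (M : ℕ)
    (hM : 0 < M) (L : Fin r → AdjoinRoot (gp Z))
    (hL : ∀ k, IsLog p ((AdjoinRoot.mk (gp Z) ((P k).map (Int.castRingHom R))) ^ M) (L k))
    (h : Fin r → R) (hh : ∑ k, AdjoinRoot.of (gp Z) (h k) * L k = 0) : h = 0 := by
  rcases Nat.eq_zero_or_pos n with h0 | hn
  · have : r = 0 := by omega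
    subst this
    exact Subsingleton.elim _ _
  obtain ⟨W, _, j, σ, hj, hσ, hdet⟩ := exists_mat p hp R hR hn Z hd P hP M hM L hL
  have h1 := hdet (Fin.castLE hr) (Fin.castLE_injective hr) 0 (Or.inl rfl)
  have h2 : (fun k => j (h k)) = 0 := by
    apply Matrix.eq_zero_of_vecMul_eq_zero h1
    funext l
    rw [Matrix.vecMul, dotProduct, Pi.zero_apply]
    have h3 := congrArg (σ (Fin.castLE hr l)) hh
    rw [map_sum, map_zero] at h3
    rw [← h3]
    refine Finset.sum_congr rfl fun k _ => ?_
    rw [Matrix.of_apply, Pi.zero_apply, sub_zero, map_mul, hσ]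
  funext k
  have h3 := congrFun h2 k
  apply hj
  rw [Pi.zero_apply, map_zero]
  exact h3

/-- independence modulo the rational numbers -/
theorem indepB (p : ℕ) (hp : p.Prime) (R : Type) [CommRing R] [IsDomain R] [CharZero R]
    (hR : PGood p R) {n : ℕ} (Z : Fin n → R)
    (hd : ∀ i, ∃ d : R → R, IsD d ∧ ∀ j, d (Z j) = if i = j then (p : R) else 0)
    {r : ℕ} (hr : r < n) (P : Fin r → ℤ[X]) (hP : LinearIndependent ℤ (num P)) (M : ℕ)
    (hM : 0 < M) (L : Fin r → AdjoinRoot (gp Z))
    (hL : ∀ k, IsLog p ((AdjoinRoot.mk (gp Z) ((P k).map (Int.castRingHom R))) ^ M) (L k))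
    (h : Fin (r + 1) → R)
    (hh : ∑ k, AdjoinRoot.of (gp Z) (h k) * (Fin.cons 1 L : Fin (r + 1) → AdjoinRoot (gp Z)) k = 0) :
    h = 0 := by
  obtain ⟨W, _, j, σ, hj, hσ, hdet⟩ := exists_mat p hp R hR (by omega) Z hd P hP M hM L hL
  have h1 := hdet (Fin.castLE hr.le) (Fin.castLE_injective hr.le) (fun k => σ ⟨r, hr⟩ (L k))
    (Or.inr ⟨⟨r, hr⟩, fun l h => by
      have := congrArg Fin.val h
      simp only [Fin.val_castLE] at this
      omega, fun k => rfl⟩)
  rw [Fin.sum_univ_succ] at hh
  simp only [Fin.cons_zero, Fin.cons_succ, mul_one] at hh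
  have hσh : ∀ l, j (h 0) + ∑ k : Fin r, j (h k.succ) * σ l (L k) = 0 := by
    intro l
    have h3 := congrArg (σ l) hh
    rw [map_add, map_sum, map_zero, hσ] at h3
    rw [← h3]
    congr 1
    refine Finset.sum_congr rfl fun k _ => ?_
    rw [map_mul, hσ]
  have h2 : (fun k : Fin r => j (h k.succ)) = 0 := by
    apply Matrix.eq_zero_of_vecMul_eq_zero h1
    funext l
    rw [Matrix.vecMul, dotProduct, Pi.zero_apply]
    have h3 := hσh (Fin.castLE hr.le l)
    have h4 := hσh ⟨r, hr⟩
    have h5 : ∀ k : Fin r, j (h k.succ) * (Matrix.of fun k l => σ (Fin.castLE hr.le l) (L k) -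
        σ ⟨r, hr⟩ (L k)) k l = j (h k.succ) * σ (Fin.castLE hr.le l) (L k) -
        j (h k.succ) * σ ⟨r, hr⟩ (L k) := fun k => by
      rw [Matrix.of_apply, mul_sub]
    rw [Finset.sum_congr rfl fun k _ => h5 k, Finset.sum_sub_distrib]
    linear_combination h3 - h4
  have h3 : ∀ k : Fin r, h k.succ = 0 := by
    intro k
    apply hj
    rw [map_zero]
    exact congrFun h2 k
  have h4 : h 0 = 0 := by
    have h5 := hσh ⟨r, hr⟩
    rw [Finset.sum_eq_zero (fun k _ => by rw [h3, map_zero, zero_mul]), add_zero] at h5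
    apply hj
    rw [map_zero]
    exact h5
  funext k
  exact Fin.cases h4 h3 k

end

end Pool.Agent.N924.CG
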