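import Pool.Agent.N924.CG.Indep

set_option autoImplicit false

/-! # Polynomials which are multiplicatively independent modulo constants -/

namespace Pool.Agent.N924.CG

open Polynomial

noncomputable section

/-- the polynomials are multiplicatively independent modulo constants -/
def MulInd {r : ℕ} (P : Fin r → ℤ[X]) : Prop :=
  ∀ (a b : Fin r → ℕ) (c d : ℤ), c ≠ 0 → d ≠ 0 →
    C c * ∏ k, P k ^ a k = C d * ∏ k, P k ^ b k → a = b

theorem deg_eq {A B : ℤ[X]} (hA : A ≠ 0) (hB : B ≠ 0)
    (h : derivative A * B = A * derivative B) : A.natDegree = B.natDegree := by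
  rcases Nat.eq_zero_or_pos A.natDegree with h1 | h1
  · have h2 : derivative A = 0 := by
      rw [eq_C_of_natDegree_eq_zero h1, derivative_C]
    rw [h2, zero_mul] at h
    have h3 := (mul_eq_zero.1 h.symm).resolve_left hA
    rw [h1, natDegree_eq_zero_of_derivative_eq_zero h3]
  rcases Nat.eq_zero_or_pos B.natDegree with h2 | h2
  · have h3 : derivative B = 0 := by
      rw [eq_C_of_natDegree_eq_zero h2, derivative_C]
    rw [h3, mul_zero] at h
    have h4 := (mul_eq_zero.1 h).resolve_right hB
    rw [h2, natDegree_eq_zero_of_derivative_eq_zero h4]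
  have e1 : (derivative A * B).coeff (A.natDegree - 1 + B.natDegree) =
      (derivative A).coeff (A.natDegree - 1) * B.coeff B.natDegree :=
    coeff_mul_add_eq_of_natDegree_le (natDegree_derivative_le A) le_rfl
  have e2 : (A * derivative B).coeff (A.natDegree + (B.natDegree - 1)) =
      A.coeff A.natDegree * (derivative B).coeff (B.natDegree - 1) :=
    coeff_mul_add_eq_of_natDegree_le le_rfl (natDegree_derivative_le B)
  have e3 : A.natDegree - 1 + B.natDegree = A.natDegree + (B.natDegree - 1) := by omega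
  rw [e3, h, e2, coeff_derivative, coeff_derivative] at e1
  have e4 : A.natDegree - 1 + 1 = A.natDegree := by omega
  have e5 : B.natDegree - 1 + 1 = B.natDegree := by omega
  have e6 : (((A.natDegree - 1 : ℕ) : ℤ)) + 1 = A.natDegree := by exact_mod_cast e4
  have e7 : (((B.natDegree - 1 : ℕ) : ℤ)) + 1 = B.natDegree := by exact_mod_cast e5
  rw [e4, e5, e6, e7, coeff_natDegree, coeff_natDegree] at e1
  have hA' : A.leadingCoeff ≠ 0 := leadingCoeff_ne_zero.2 hA
  have hB' : B.leadingCoeff ≠ 0 := leadingCoeff_ne_zero.2 hB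
  have e8 : (A.leadingCoeff * B.leadingCoeff) * ((A.natDegree : ℤ) - B.natDegree) = 0 := by
    linear_combination -e1
  have e9 := (mul_eq_zero.1 e8).resolve_left (mul_ne_zero hA' hB')
  have e10 : (A.natDegree : ℤ) = B.natDegree := by linarith
  exact_mod_cast e10

theorem prop_of {A B : ℤ[X]} (hA : A ≠ 0) (hB : B ≠ 0)
    (h : derivative A * B = A * derivative B) :
    C B.leadingCoeff * A = C A.leadingCoeff * B := by
  by_contra hne
  set D : ℤ[X] := C B.leadingCoeff * A - C A.leadingCoeff * B with hD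
  have hD0 : D ≠ 0 := sub_ne_zero.2 hne
  have h1 : derivative D * B = D * derivative B := by
    rw [hD, derivative_sub, derivative_C_mul, derivative_C_mul]
    linear_combination (C B.leadingCoeff) * h
  have h2 := deg_eq hD0 hB h1
  have h3 := deg_eq hA hB h
  have h4 : D.coeff D.natDegree = 0 := by
    rw [h2, hD, coeff_sub, coeff_C_mul, coeff_C_mul]
    have h5 : A.coeff B.natDegree = A.leadingCoeff := by rw [← h3]; rfl
    rw [h5, coeff_natDegree]
    ring
  exact leadingCoeff_ne_zero.2 hD0 h4

theorem der_prod {r : ℕ} (P : Fin r → ℤ[X]) (a : Fin r → ℕ) :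
    derivative (∏ k, P k ^ a k) * ∏ k, P k = (∏ k, P k ^ a k) * ∑ k, C (a k : ℤ) * num P k := by
  classical
  rw [derivative_prod_finset, Finset.sum_mul, Finset.mul_sum]
  refine Finset.sum_congr rfl fun k _ => ?_
  unfold num
  rw [← Finset.mul_prod_erase Finset.univ P (Finset.mem_univ k),
    ← Finset.mul_prod_erase Finset.univ (fun k => P k ^ a k) (Finset.mem_univ k), derivative_pow]
  rcases Nat.eq_zero_or_pos (a k) with h | h
  · rw [h]
    simp
  · obtain ⟨m, hm⟩ : ∃ m, a k = m + 1 := ⟨a k - 1, by omega⟩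
    rw [hm, Nat.add_sub_cancel]
    simp only [map_natCast, Int.cast_natCast]
    ring

theorem MulInd.ne_zero {r : ℕ} {P : Fin r → ℤ[X]} (h : MulInd P) (k : Fin r) : P k ≠ 0 := by
  classical
  intro h0
  have h1 := h (Pi.single k 1) (Pi.single k 2) 1 1 one_ne_zero one_ne_zero (by
    congr 1
    rw [Finset.prod_eq_zero (Finset.mem_univ k), Finset.prod_eq_zero (Finset.mem_univ k)]
    · rw [Pi.single_eq_same, h0, zero_pow two_ne_zero]
    · rw [Pi.single_eq_same, h0, zero_pow one_ne_zero])
  have h2 := congrFun h1 k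
  rw [Pi.single_eq_same, Pi.single_eq_same] at h2
  omega

/-- independence of the logarithmic derivatives -/
theorem MulInd.lin {r : ℕ} {P : Fin r → ℤ[X]} (h : MulInd P) : LinearIndependent ℤ (num P) := by
  classical
  rw [Fintype.linearIndependent_iff]
  intro e he k
  let a : Fin r → ℕ := fun k => (e k).toNat
  let b : Fin r → ℕ := fun k => (-e k).toNat
  have hab : ∀ k, (a k : ℤ) - b k = e k := fun k => Int.toNat_sub_toNat_neg (e k)
  have h1 := der_prod P a
  have h2 := der_prod P b
  have hP : ∏ k, P k ≠ 0 := Finset.prod_ne_zero_iff.2 fun k _ => h.ne_zero k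
  have hA : ∏ k, P k ^ a k ≠ 0 := Finset.prod_ne_zero_iff.2 fun k _ => pow_ne_zero _ (h.ne_zero k)
  have hB : ∏ k, P k ^ b k ≠ 0 := Finset.prod_ne_zero_iff.2 fun k _ => pow_ne_zero _ (h.ne_zero k)
  have h3 : ∑ k, C (a k : ℤ) * num P k - ∑ k, C (b k : ℤ) * num P k = 0 := by
    rw [← he, ← Finset.sum_sub_distrib]
    refine Finset.sum_congr rfl fun k _ => ?_
    rw [← sub_mul, ← C_sub, hab, smul_eq_C_mul]
  have h4 : derivative (∏ k, P k ^ a k) * (∏ k, P k ^ b k) =
      (∏ k, P k ^ a k) * derivative (∏ k, P k ^ b k) := by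
    apply mul_right_cancel₀ hP
    linear_combination (∏ k, P k ^ b k) * h1 - (∏ k, P k ^ a k) * h2 +
      (∏ k, P k ^ a k) * (∏ k, P k ^ b k) * h3
  have h5 := h a b _ _ (leadingCoeff_ne_zero.2 hB) (leadingCoeff_ne_zero.2 hA) (prop_of hA hB h4)
  have h6 := congrFun h5 k
  rw [← hab k, h6, sub_self]

end

end Pool.Agent.N924.CG
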