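import Pool.Agent.N924.CG.Top
import Pool.Agent.N924.CG.Mul
import Pool.Agent.N924.LP.Eq

set_option autoImplicit false

/-! # Closures of groups of points for almost all polynomials -/

namespace Pool.Agent.N924.CG

open Polynomial Pool.Agent.H33R4 Pool.Agent.N924.LP

noncomputable section

/-- the conclusion -/
def Full (p : ℕ) [Fact p.Prime] {n : ℕ} (z : Fin n → ℤ) {r : ℕ} (P : Fin r → ℤ[X]) : Prop :=
  ∀ (K : Type) [Field K] [NumberField K] (θ : K), aeval θ (gp z) = 0 →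
    Module.finrank ℚ K = n → IntermediateField.adjoin ℚ {θ} = ⊤ →
    (r ≤ n → ∀ x : Fin r → Kˣ, (∀ k, (x k : K) = aeval θ (P k)) → IndZp p K x) ∧
    (r < n → ∀ (m : ℕ) (q : Fin r → ℚ), 0 < m → (∀ k, q k ≠ 0) → ∀ x : Fin r → Kˣ,
      (∀ k, (x k : K) = algebraMap ℚ K (q k) * aeval θ (P k) ^ m) → IndZp p K x)

theorem full_of {p : ℕ} [Fact p.Prime] {n : ℕ} (z : Fin n → ℤ) {r : ℕ} (P : Fin r → ℤ[X])
    (hA : r ≤ n → IndA p z P) (hB : r < n → IndB p z P) : Full p z P := by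
  intro K _ _ θ hθ hdeg hgen
  refine ⟨fun hr x hx => ?_, fun hr m q hm hq x hx => ?_⟩
  · obtain ⟨c, hc⟩ := hA hr
    refine core z P (fun s t => s = 1 ∧ t = 1) ⟨c, ?_⟩ K θ hθ hdeg hgen 1 one_pos (fun _ => 1)
      (fun _ => one_ne_zero) (fun a => by simp) x (fun k => by rw [hx, map_one, one_mul, pow_one])
    rintro N a b s t ⟨rfl, rfl⟩ hdvd
    rw [C_1, one_mul, one_mul] at hdvd
    exact hc N a b hdvd
  · refine core z P IsCoprime (hB hr) K θ hθ hdeg hgen m hm q hq (fun a => ?_) x hx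
    have h1 := (∏ k, q k ^ a k).reduced
    exact Int.isCoprime_iff_gcd_eq_one.2 (by simpa [Int.gcd, Nat.Coprime] using h1)

/-- a power series for every class -/
theorem cls {p : ℕ} [Fact p.Prime] {n : ℕ} (S : Sys p n) (hS : HasD S) {r : ℕ}
    (P : Fin r → ℤ[X]) (hP : MulInd P) (ρ : Fin n → ℤ) (hcop : ∀ k, Cop p ρ (P k)) :
    ∃ h : S.R, h ≠ 0 ∧ ∀ z y : Fin n → ℤ, (∀ i, z i = ρ i + (p : ℤ) ^ 2 * y i) →
      ¬ Full p z P → S.ev (fun i => ((y i : ℤ) : ℤ_[p])) h = 0 := by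
  obtain ⟨hA, hA0, hA1⟩ : ∃ h : S.R, h ≠ 0 ∧ ∀ z y : Fin n → ℤ,
      (∀ i, z i = ρ i + (p : ℤ) ^ 2 * y i) → ¬ (r ≤ n → IndA p z P) →
      S.ev (fun i => ((y i : ℤ) : ℤ_[p])) h = 0 := by
    by_cases hr : r ≤ n
    · obtain ⟨h, h0, h1⟩ := clsA S hS hr P hP.lin ρ hcop
      exact ⟨h, h0, fun z y hz hbad => h1 z y hz fun h => hbad fun _ => h⟩
    · exact ⟨1, one_ne_zero, fun z y _ hbad => absurd (fun h => absurd h hr) hbad⟩
  obtain ⟨hB, hB0, hB1⟩ : ∃ h : S.R, h ≠ 0 ∧ ∀ z y : Fin n → ℤ,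
      (∀ i, z i = ρ i + (p : ℤ) ^ 2 * y i) → ¬ (r < n → IndB p z P) →
      S.ev (fun i => ((y i : ℤ) : ℤ_[p])) h = 0 := by
    by_cases hr : r < n
    · obtain ⟨h, h0, h1⟩ := clsB S hS hr P hP.lin ρ hcop
      exact ⟨h, h0, fun z y hz hbad => h1 z y hz fun h => hbad fun _ => h⟩
    · exact ⟨1, one_ne_zero, fun z y _ hbad => absurd (fun h => absurd h hr) hbad⟩
  refine ⟨hA * hB, mul_ne_zero hA0 hB0, fun z y hz hbad => ?_⟩
  rw [map_mul]
  by_cases h1 : r ≤ n → IndA p z P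
  · by_cases h2 : r < n → IndB p z P
    · exact absurd (full_of z P h1 h2) hbad
    · rw [hB1 z y hz h2, mul_zero]
  · rw [hA1 z y hz h1, zero_mul]

theorem cop_congr {p : ℕ} {n : ℕ} {z z' : Fin n → ℤ} (h : ∀ i, (p : ℤ) ∣ z i - z' i) {P : ℤ[X]}
    (hz : Cop p z P) : Cop p z' P := by
  unfold Cop at hz ⊢
  have h1 : (gp z).map (Int.castRingHom (ZMod p)) = (gp z').map (Int.castRingHom (ZMod p)) := by
    rw [gp_map, gp_map]
    congr 1
    funext i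
    rw [eq_intCast, eq_intCast, ← sub_eq_zero, ← Int.cast_sub, ZMod.intCast_zmod_eq_zero_iff_dvd]
    exact h i
  rwa [← h1]

/-- **Closures of groups of points for almost all polynomials.** -/
theorem main {τ : Type} (S : ℕ → Finset τ) (p : ℕ) [hp : Fact p.Prime] {n : ℕ}
    (z : τ → Fin n → ℤ) (hz : Eqd S z) {r : ℕ} (P : Fin r → ℤ[X]) (hP : MulInd P) :
    Nul S {t | (∀ k, Cop p (z t) (P k)) ∧ ¬ Full p (z t) P} := by
  classical
  have hne2 : NeZero (p ^ 2) := ⟨pow_ne_zero _ hp.out.ne_zero⟩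
  obtain ⟨Y, hY⟩ := exists_sysD p n
  let rep : (Fin n → ZMod (p ^ 2)) → Fin n → ℤ := fun R i => ((R i).val : ℤ)
  have hex : ∀ R : Fin n → ZMod (p ^ 2), ∃ h : Y.R, h ≠ 0 ∧
      ((∀ k, Cop p (rep R) (P k)) → ∀ z y : Fin n → ℤ,
        (∀ i, z i = rep R i + (p : ℤ) ^ 2 * y i) → ¬ Full p z P →
        Y.ev (fun i => ((y i : ℤ) : ℤ_[p])) h = 0) := by
    intro R
    by_cases hc : ∀ k, Cop p (rep R) (P k)
    · obtain ⟨h, h0, h1⟩ := cls Y hY P hP (rep R) hc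
      exact ⟨h, h0, fun _ => h1⟩
    · exact ⟨1, one_ne_zero, fun h => absurd h hc⟩
  choose h hh0 hh using hex
  have hB : Nul S {t | ∃ R ∈ (Finset.univ : Finset (Fin n → ZMod (p ^ 2))), t ∈
      (fun R => {t | ∃ y : Fin n → ℤ, (∀ i, z t i = rep R i + (p : ℤ) ^ 2 * y (Equiv.refl _ i)) ∧
        Y.ev (fun i => ((y i : ℤ) : ℤ_[p])) (h R) = 0}) R} :=
    nul_union _ _ fun R _ => nul_class hz (Equiv.refl _) Y (h R) (hh0 R) _
  refine hB.mono ?_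
  rintro t ⟨hcop, hbad⟩
  let R : Fin n → ZMod (p ^ 2) := fun i => ((z t i : ℤ) : ZMod (p ^ 2))
  have hdvd : ∀ i, (p : ℤ) ^ 2 ∣ z t i - rep R i := by
    intro i
    have h1 : ((p ^ 2 : ℕ) : ℤ) ∣ z t i - ((R i).val : ℤ) := by
      rw [← ZMod.intCast_zmod_eq_zero_iff_dvd]
      push_cast
      rw [ZMod.natCast_zmod_val]
      exact sub_self _
    exact_mod_cast h1
  choose y hy using hdvd
  have hy' : ∀ i, z t i = rep R i + (p : ℤ) ^ 2 * y i := by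
    intro i
    rw [← hy i]
    ring
  refine ⟨R, Finset.mem_univ _, y, hy', hh R ?_ (z t) y hy' hbad⟩
  intro k
  exact cop_congr (fun i => (dvd_pow_self _ two_ne_zero).trans ⟨y i, hy i⟩) (hcop k)

end

end Pool.Agent.N924.CG
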