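import Pool.Agent.N924.CG.Top
import Pool.Agent.H33R4.DUAL

set_option autoImplicit false

/-! # Subgroups -/

namespace Pool.Agent.N924.CG

open Filter Topology Pool.Agent.H33R4
open Pool.Agent.H440R3 (Kp QpPoints incl)

noncomputable section

variable {p : ℕ} [hp : Fact p.Prime]

theorem mem_group {G : Type} [CommGroup G] {l : ℕ} (δ : Fin l → G) {y : G}
    (hy : y ∈ Subgroup.closure (Set.range δ)) : ∃ c : Fin l → ℤ, y = ∏ j, δ j ^ c j := by
  classical
  induction hy using Subgroup.closure_induction with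
  | mem y hy =>
    obtain ⟨j, rfl⟩ := hy
    refine ⟨Pi.single j 1, ?_⟩
    rw [Finset.prod_eq_single j]
    · simp
    · intro k _ hk
      simp [Pi.single_eq_of_ne hk]
    · intro h
      exact absurd (Finset.mem_univ j) h
  | one => exact ⟨0, by simp⟩
  | mul x y _ _ ihx ihy =>
    obtain ⟨c, rfl⟩ := ihx
    obtain ⟨c', rfl⟩ := ihy
    refine ⟨c + c', ?_⟩
    rw [← Finset.prod_mul_distrib]
    exact Finset.prod_congr rfl fun j _ => (zpow_add _ _ _).symm
  | inv x _ ihx =>
    obtain ⟨c, rfl⟩ := ihx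
    refine ⟨-c, ?_⟩
    rw [← Finset.prod_inv_distrib]
    exact Finset.prod_congr rfl fun j _ => (zpow_neg _ _).symm

theorem prod_zpow_sum {G ι : Type} [CommGroup G] (s : Finset ι) (g : G) (f : ι → ℤ) :
    g ^ (∑ i ∈ s, f i) = ∏ i ∈ s, g ^ f i := by
  classical
  induction s using Finset.induction_on with
  | empty => simp
  | insert i s hi ih => rw [Finset.sum_insert hi, Finset.prod_insert hi, zpow_add, ih]

theorem prod_prod {G : Type} [CommGroup G] {r s : ℕ} (x : Fin r → G) (c : Fin s → Fin r → ℤ)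
    (e : Fin s → ℤ) : ∏ j, (∏ i, x i ^ c j i) ^ e j = ∏ i, x i ^ (∑ j, e j * c j i) := by
  have h1 : ∀ j, (∏ i, x i ^ c j i) ^ e j = ∏ i, x i ^ (e j * c j i) := by
    intro j
    rw [← Finset.prod_zpow]
    refine Finset.prod_congr rfl fun i _ => ?_
    rw [← zpow_mul, mul_comm]
  simp only [h1]
  rw [Finset.prod_comm]
  exact Finset.prod_congr rfl fun i _ => (prod_zpow_sum _ _ _).symm

/-- `ℤ_p`-independent elements are independent -/
theorem ind_of {K : Type} [Field K] [NumberField K] {r : ℕ} {x : Fin r → Kˣ}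
    (hx : IndZp p K x) (e : Fin r → ℤ) (he : ∏ i, x i ^ e i = 1) : e = 0 := by
  funext i
  have h1 := hx (fun _ => e) (by
    simp only [he, map_one]
    exact tendsto_const_nhds) i
  have h2 := tendsto_nhds_unique h1 tendsto_const_nhds
  have h3 : ((e i : ℤ) : ℤ_[p]) = ((0 : ℤ) : ℤ_[p]) := by
    rw [Int.cast_zero]
    exact h2.symm
  exact_mod_cast h3

/-- elements of the group generated by `ℤ_p`-independent elements -/
theorem sub_ind {K : Type} [Field K] [NumberField K] {r : ℕ} {x : Fin r → Kˣ}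
    (hx : IndZp p K x) {s : ℕ} (y : Fin s → Kˣ) (hy : ∀ j, y j ∈ Subgroup.closure (Set.range x))
    (hind : ∀ e : Fin s → ℤ, ∏ j, y j ^ e j = 1 → e = 0) : IndZp p K y := by
  classical
  choose c hc using fun j => mem_group x (hy j)
  have hprod : ∀ e : Fin s → ℤ, ∏ j, y j ^ e j = ∏ i, x i ^ (∑ j, e j * c j i) := by
    intro e
    rw [← prod_prod x c e]
    refine Finset.prod_congr rfl fun j _ => ?_
    rw [← hc j]
  obtain ⟨d, G, hd, hG⟩ := DUAL.exists_dual (n := r) c (by
    intro e he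
    apply hind
    rw [hprod]
    refine Finset.prod_eq_one fun i _ => ?_
    rw [he i, zpow_zero])
  intro a ha l
  have h1 := hx (fun k i => ∑ j, a k j * c j i) (by
    refine ha.congr fun k => ?_
    rw [hprod])
  have h2 : Tendsto (fun k => ((d : ℤ) : ℤ_[p]) * ((a k l : ℤ) : ℤ_[p])) atTop (𝓝 0) := by
    have h3 : Tendsto (fun k => ∑ i, ((∑ j, a k j * c j i : ℤ) : ℤ_[p]) * ((G i l : ℤ) : ℤ_[p]))
        atTop (𝓝 (∑ i : Fin r, 0 * ((G i l : ℤ) : ℤ_[p]))) :=
      tendsto_finsetSum _ fun i _ => (h1 i).mul_const _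
    simp only [zero_mul, Finset.sum_const_zero] at h3
    refine h3.congr fun k => ?_
    have h4 : ∑ i, (∑ j, a k j * c j i) * G i l = d * a k l := by
      simp only [Finset.sum_mul]
      rw [Finset.sum_comm]
      have h5 : ∀ j, ∑ i, a k j * c j i * G i l = a k j * (if j = l then d else 0) := by
        intro j
        rw [← hG j l, Finset.mul_sum]
        exact Finset.sum_congr rfl fun i _ => by ring
      simp only [h5]
      rw [Finset.sum_eq_single l]
      · rw [if_pos rfl, mul_comm]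
      · intro j _ hj
        rw [if_neg hj, mul_zero]
      · intro h
        exact absurd (Finset.mem_univ l) h
    have h6 : ((∑ i, (∑ j, a k j * c j i) * G i l : ℤ) : ℤ_[p]) = ((d * a k l : ℤ) : ℤ_[p]) := by
      rw [h4]
    push_cast at h6 ⊢
    exact h6
  have hdn : ‖((d : ℤ) : ℤ_[p])‖ ≠ 0 := by
    rw [norm_ne_zero_iff]
    exact_mod_cast hd
  rw [tendsto_zero_iff_norm_tendsto_zero] at h2 ⊢
  have h12 := h2.const_mul (‖((d : ℤ) : ℤ_[p])‖⁻¹)
  rw [mul_zero] at h12
  refine h12.congr fun k => ?_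
  rw [norm_mul, ← mul_assoc, inv_mul_cancel₀ hdn, one_mul]

end

end Pool.Agent.N924.CG
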