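import Pool.Agent.N924.CG.Cls2
import Pool.Agent.H440R3.Defs

set_option autoImplicit false

/-! # Convergence in `(ℚ_p ⊗ K)ˣ` and congruences in `ℤ_p[θ]` -/

namespace Pool.Agent.N924.CG

open Polynomial Pool.Agent.H33R4 Pool.Agent.N924.LP Filter Topology
open Pool.Agent.H440R3 (Kp QpPoints incl)
open scoped TensorProduct

noncomputable section

variable {p : ℕ} [hp : Fact p.Prime]

/-- independence over `ℤ_p` in `(ℚ_p ⊗ K)ˣ` -/
def IndZp (p : ℕ) [Fact p.Prime] (K : Type) [Field K] [NumberField K] {s : ℕ}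
    (y : Fin s → Kˣ) : Prop :=
  ∀ a : ℕ → Fin s → ℤ,
    Tendsto (fun k => incl p K (∏ i, y i ^ a k i)) atTop (𝓝 (1 : QpPoints p K)) →
      ∀ i, Tendsto (fun k => ((a k i : ℤ) : ℤ_[p])) atTop (𝓝 0)

section lattice

variable {n : ℕ} (z : Fin n → ℤ) (K : Type) [Field K] [NumberField K] (θ : K)

/-- `1 ⊗ x` -/
def emb (p : ℕ) [Fact p.Prime] (K : Type) [Field K] [NumberField K] : K →+* Kp p K :=
  (Algebra.TensorProduct.includeRight : K →ₐ[ℚ] Kp p K)

theorem incl_val (x : Kˣ) : ((incl p K x : QpPoints p K) : Kp p K) = emb p K (x : K) := rfl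

theorem ev_zero (hθ : aeval θ (gp z) = 0) :
    ((gp z).map (Int.castRingHom ℤ_[p])).eval₂ ((algebraMap ℚ_[p] (Kp p K)).comp
      PadicInt.Coe.ringHom) (emb p K θ) = 0 := by
  rw [Polynomial.eval₂_map]
  have h1 := congrArg (emb p K) hθ
  rw [map_zero, aeval_def, Polynomial.hom_eval₂] at h1
  rw [← h1]
  exact congrArg (fun f => (gp z).eval₂ f (emb p K θ)) (RingHom.ext_int _ _)

/-- the homomorphism from `ℤ_p[θ]` -/
def Psi (hθ : aeval θ (gp z) = 0) : Zt p z →+* Kp p K :=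
  AdjoinRoot.lift ((algebraMap ℚ_[p] (Kp p K)).comp PadicInt.Coe.ringHom) (emb p K θ)
    (ev_zero z K θ hθ)

theorem Psi_vl (hθ : aeval θ (gp z) = 0) (Q : ℤ[X]) :
    Psi (p := p) z K θ hθ (vl p z Q) = emb p K (aeval θ Q) := by
  unfold Psi vl
  rw [AdjoinRoot.lift_mk, Polynomial.eval₂_map, aeval_def, Polynomial.hom_eval₂]
  exact congrArg (fun f => Q.eval₂ f (emb p K θ)) (RingHom.ext_int _ _)

variable (hθ : aeval θ (gp z) = 0) (hdeg : Module.finrank ℚ K = n)
  (hgen : IntermediateField.adjoin ℚ {θ} = ⊤)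

include hdeg hgen in
/-- the basis `1 ⊗ θ ^ i` -/
theorem exists_basis : ∃ B : Module.Basis (Fin n) ℚ_[p] (Kp p K),
    ∀ i, B i = emb p K θ ^ (i : ℕ) := by
  have hd : (minpoly ℚ θ).natDegree = n := by
    rw [← hdeg]
    exact (Field.primitive_element_iff_minpoly_natDegree_eq ℚ θ).1 hgen
  have hli : LinearIndependent ℚ (fun i : Fin n => θ ^ (i : ℕ)) := by
    have h1 := linearIndependent_pow (K := ℚ) θ
    rw [hd] at h1
    exact h1
  have hpos : 0 < n := by
    rw [← hdeg]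
    exact Module.finrank_pos
  have _ : Nonempty (Fin n) := ⟨⟨0, hpos⟩⟩
  refine ⟨Algebra.TensorProduct.basis ℚ_[p] (basisOfLinearIndependentOfCardEqFinrank hli
    (by rw [Fintype.card_fin, hdeg])), fun i => ?_⟩
  rw [Algebra.TensorProduct.basis_apply, coe_basisOfLinearIndependentOfCardEqFinrank, ← map_pow]
  rfl

include hdeg hgen in
/-- a neighbourhood of zero -/
theorem near (T : ℕ) : ∀ᶠ x in 𝓝 (0 : Kp p K), ∃ w : Zt p z,
    x = (p : Kp p K) ^ T * Psi z K θ hθ w := by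
  obtain ⟨B, hB⟩ := exists_basis (p := p) K θ hdeg hgen
  have hcont : ∀ i, Continuous fun x : Kp p K => B.repr x i := fun i =>
    IsModuleTopology.continuous_of_linearMap (B.coord i)
  have hp0 : (0 : ℝ) < (p : ℝ)⁻¹ ^ T := by
    have : (0 : ℝ) < p := by exact_mod_cast hp.out.pos
    positivity
  have h1 : ∀ᶠ x in 𝓝 (0 : Kp p K), ∀ i, ‖B.repr x i‖ < (p : ℝ)⁻¹ ^ T := by
    rw [Filter.eventually_all]
    intro i
    have h2 : Tendsto (fun x : Kp p K => ‖B.repr x i‖) (𝓝 0) (𝓝 ‖B.repr (0 : Kp p K) i‖) :=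
      (hcont i).norm.tendsto 0
    rw [map_zero, Finsupp.zero_apply, norm_zero] at h2
    exact h2.eventually (gt_mem_nhds hp0)
  filter_upwards [h1] with x hx
  have hpQ : (p : ℚ_[p]) ≠ 0 := by exact_mod_cast hp.out.ne_zero
  have hc : ∀ i, ∃ c : ℤ_[p], B.repr x i = (p : ℚ_[p]) ^ T * (c : ℚ_[p]) := by
    intro i
    refine ⟨⟨B.repr x i / (p : ℚ_[p]) ^ T, ?_⟩, ?_⟩
    · rw [norm_div, norm_pow, Padic.norm_p, div_le_one hp0]
      exact (hx i).le
    · change _ = (p : ℚ_[p]) ^ T * (B.repr x i / (p : ℚ_[p]) ^ T)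
      field_simp
  choose c hc using hc
  refine ⟨∑ i : Fin n, AdjoinRoot.of _ (c i) * AdjoinRoot.root _ ^ (i : ℕ), ?_⟩
  conv_lhs => rw [← B.sum_repr x]
  rw [map_sum, Finset.mul_sum]
  refine Finset.sum_congr rfl fun i _ => ?_
  rw [hB, hc, map_mul, map_pow]
  unfold Psi
  rw [AdjoinRoot.lift_of, AdjoinRoot.lift_root, Algebra.smul_def, map_mul, map_pow, map_natCast,
    mul_assoc]
  rfl

include hdeg hgen in
theorem Psi_inj : Function.Injective (Psi (p := p) z K θ hθ) := by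
  rw [injective_iff_map_eq_zero]
  intro w hw
  obtain ⟨B, hB⟩ := exists_basis (p := p) K θ hdeg hgen
  obtain ⟨Q, rfl⟩ := AdjoinRoot.mk_surjective w
  have hG : ((gp z).map (Int.castRingHom ℤ_[p])).Monic := (gp_monic z).map _
  have hdG : ((gp z).map (Int.castRingHom ℤ_[p])).natDegree = n := by
    rw [(gp_monic z).natDegree_map, gp_natDegree]
  set Q₁ := Q %ₘ ((gp z).map (Int.castRingHom ℤ_[p])) with hQ₁
  have hmk : AdjoinRoot.mk ((gp z).map (Int.castRingHom ℤ_[p])) Q = AdjoinRoot.mk _ Q₁ := by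
    rw [AdjoinRoot.mk_eq_mk, hQ₁]
    have h1 := modByMonic_add_div Q ((gp z).map (Int.castRingHom ℤ_[p]))
    refine ⟨Q /ₘ ((gp z).map (Int.castRingHom ℤ_[p])), ?_⟩
    linear_combination -h1
  have hdeg1 : Q₁.degree < n := by
    have h1 := degree_modByMonic_lt Q hG
    rwa [degree_eq_natDegree hG.ne_zero, hdG] at h1
  rw [hmk] at hw ⊢
  unfold Psi at hw
  rw [AdjoinRoot.lift_mk] at hw
  have h2 : Q₁.eval₂ ((algebraMap ℚ_[p] (Kp p K)).comp PadicInt.Coe.ringHom) (emb p K θ) =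
      ∑ i : Fin n, ((Q₁.coeff (i : ℕ) : ℤ_[p]) : ℚ_[p]) • B i := by
    have hnat : Q₁ = 0 ∨ Q₁.natDegree < n := by
      by_cases h0 : Q₁ = 0
      · exact Or.inl h0
      · right
        exact (natDegree_lt_iff_degree_lt h0).2 hdeg1
    rcases hnat with h0 | h0
    · rw [h0]
      simp
    · rw [eval₂_eq_sum_range' _ h0, Finset.sum_range]
      refine Finset.sum_congr rfl fun i _ => ?_
      rw [hB, Algebra.smul_def]
      rfl
  rw [h2] at hw
  have h3 := Fintype.linearIndependent_iff.1 B.linearIndependent _ hw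
  have h4 : Q₁ = 0 := by
    ext i
    rw [coeff_zero]
    by_cases hi : i < n
    · have h5 : ((Q₁.coeff i : ℤ_[p]) : ℚ_[p]) = ((0 : ℤ_[p]) : ℚ_[p]) := by
        rw [PadicInt.coe_zero]
        exact h3 ⟨i, hi⟩
      exact Subtype.coe_injective h5
    · apply coeff_eq_zero_of_degree_lt
      exact hdeg1.trans_le (by exact_mod_cast not_lt.1 hi)
  rw [h4, map_zero]

end lattice

theorem vl_sub {n : ℕ} (z : Fin n → ℤ) (A B : ℤ[X]) : vl p z (A - B) = vl p z A - vl p z B := by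
  unfold vl
  rw [Polynomial.map_sub, map_sub]

theorem vl_mul {n : ℕ} (z : Fin n → ℤ) (A B : ℤ[X]) : vl p z (A * B) = vl p z A * vl p z B := by
  unfold vl
  rw [Polynomial.map_mul, map_mul]

/-- **From congruences to convergence.** -/
theorem core {n : ℕ} (z : Fin n → ℤ) {r : ℕ} (P : Fin r → ℤ[X]) (Al : ℤ → ℤ → Prop)
    (H : ∃ c : ℕ, ∀ (N : ℕ) (a b : Fin r → ℕ) (s t : ℤ), Al s t →
      (p : Zt p z) ^ (N + c) ∣ vl p z (C s * ∏ k, P k ^ a k - C t * ∏ k, P k ^ b k) →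
      ∀ k, (p : ℤ) ^ N ∣ (a k : ℤ) - b k)
    (K : Type) [Field K] [NumberField K] (θ : K) (hθ : aeval θ (gp z) = 0)
    (hdeg : Module.finrank ℚ K = n) (hgen : IntermediateField.adjoin ℚ {θ} = ⊤)
    (m : ℕ) (hm : 0 < m) (q : Fin r → ℚ) (hq : ∀ k, q k ≠ 0)
    (hAl : ∀ a : Fin r → ℤ, Al (∏ k, q k ^ a k).num (∏ k, q k ^ a k).den)
    (x : Fin r → Kˣ) (hx : ∀ k, (x k : K) = algebraMap ℚ K (q k) * (aeval θ (P k)) ^ m) :
    IndZp p K x := by
  classical
  obtain ⟨c, hc⟩ := H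
  have hP : ∀ k, aeval θ (P k) ≠ 0 := by
    intro k h0
    apply (x k).ne_zero
    rw [hx, h0, zero_pow hm.ne', mul_zero]
  intro a ha i
  -- congruences for the exponents
  have key : ∀ N : ℕ, ∀ᶠ k in atTop, (p : ℤ) ^ N ∣ m * a k i := by
    intro N
    have h1 : Tendsto (fun k => ((incl p K (∏ i, x i ^ a k i) : QpPoints p K) : Kp p K) - 1)
        atTop (𝓝 0) := by
      have h2 := (Units.continuous_val (M := Kp p K)).tendsto 1
      rw [Units.val_one] at h2
      have h3 := (h2.comp ha).sub_const 1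
      rw [sub_self] at h3
      exact h3
    filter_upwards [h1.eventually (near z K θ hθ hdeg hgen (N + c))] with k hk
    obtain ⟨w, hw⟩ := hk
    set u : Fin r → ℕ := fun i => m * (a k i).toNat with hu
    set v : Fin r → ℕ := fun i => m * (-a k i).toNat with hv
    set Qr : ℚ := ∏ i, q i ^ a k i with hQr
    have hQ0 : Qr ≠ 0 := Finset.prod_ne_zero_iff.2 fun i _ => zpow_ne_zero _ (hq i)
    have hden : ((Qr.den : ℤ) : K) ≠ 0 := by
      exact_mod_cast Qr.den_nz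
    -- the equation in `K`
    have h4 : ((∏ i, x i ^ a k i : Kˣ) : K) * aeval θ (C (Qr.den : ℤ) * ∏ i, P i ^ v i) =
        aeval θ (C Qr.num * ∏ i, P i ^ u i) := by
      rw [Units.coe_prod]
      simp only [Units.val_zpow_eq_zpow_val, hx]
      rw [map_mul, map_mul, map_prod, map_prod, aeval_C, aeval_C]
      simp only [map_pow]
      have e1 : ∏ i, (algebraMap ℚ K (q i) * (aeval θ (P i)) ^ m) ^ a k i =
          algebraMap ℚ K Qr * ∏ i, ((aeval θ (P i)) ^ m) ^ a k i := by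
        rw [hQr, map_prod, ← Finset.prod_mul_distrib]
        refine Finset.prod_congr rfl fun i _ => ?_
        rw [mul_zpow, map_zpow₀]
      have e2 : algebraMap ℚ K Qr * (algebraMap ℤ K (Qr.den : ℤ)) = algebraMap ℤ K Qr.num := by
        have h5 : Qr * (Qr.den : ℚ) = Qr.num := Rat.mul_den_eq_num Qr
        have h6 := congrArg (algebraMap ℚ K) h5
        rw [map_mul, map_natCast, map_intCast] at h6
        rw [eq_intCast, eq_intCast]
        push_cast
        exact h6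
      have e3 : (∏ i, ((aeval θ (P i)) ^ m) ^ a k i) * ∏ i, (aeval θ (P i)) ^ v i =
          ∏ i, (aeval θ (P i)) ^ u i := by
        rw [← Finset.prod_mul_distrib]
        refine Finset.prod_congr rfl fun i _ => ?_
        have h7 : ((a k i).toNat : ℤ) - ((-a k i).toNat : ℤ) = a k i :=
          Int.toNat_sub_toNat_neg (a k i)
        rw [← zpow_natCast, ← zpow_natCast, ← zpow_natCast, ← zpow_mul, ← zpow_add₀ (hP i)]
        congr 1
        rw [hu, hv]
        push_cast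
        linear_combination (-(m : ℤ)) * h7
      rw [e1, ← e3, ← e2]
      ring
    have h5 : vl p z (C Qr.num * ∏ i, P i ^ u i - C (Qr.den : ℤ) * ∏ i, P i ^ v i) =
        (p : Zt p z) ^ (N + c) * (w * vl p z (C (Qr.den : ℤ) * ∏ i, P i ^ v i)) := by
      apply Psi_inj z K θ hθ hdeg hgen
      rw [vl_sub, map_sub, map_mul (Psi z K θ hθ), map_mul (Psi z K θ hθ) w, map_pow,
        map_natCast (Psi z K θ hθ), Psi_vl, Psi_vl, ← mul_assoc, ← hw, incl_val, ← h4, map_mul]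
      ring
    have h6 := hc N u v Qr.num Qr.den (hAl _) ⟨_, h5⟩ i
    have h7 : ((a k i).toNat : ℤ) - ((-a k i).toNat : ℤ) = a k i :=
      Int.toNat_sub_toNat_neg (a k i)
    have h8 : ((u i : ℕ) : ℤ) - v i = m * a k i := by
      rw [hu, hv]
      push_cast
      linear_combination (m : ℤ) * h7
    rwa [h8] at h6
  have h9 : Tendsto (fun k => ((m : ℤ_[p]) * ((a k i : ℤ) : ℤ_[p]))) atTop (𝓝 0) := by
    rw [tendsto_zero_iff_norm_tendsto_zero, Metric.tendsto_nhds]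
    intro ε hε
    have hp1 : (1 : ℝ) < p := by exact_mod_cast hp.out.one_lt
    obtain ⟨N, hN⟩ := exists_pow_lt_of_lt_one hε (inv_lt_one_of_one_lt₀ hp1)
    filter_upwards [key N] with k hk
    rw [Real.dist_eq, sub_zero, abs_of_nonneg (norm_nonneg _)]
    refine lt_of_le_of_lt ?_ hN
    have h10 : (m : ℤ_[p]) * ((a k i : ℤ) : ℤ_[p]) = (((m * a k i : ℤ)) : ℤ_[p]) := by push_cast; ring
    rw [h10]
    have h11 : ‖(((m * a k i : ℤ)) : ℤ_[p])‖ ≤ (p : ℝ) ^ (-(N : ℤ)) :=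
      PadicInt.norm_int_le_pow_iff_dvd.2 (by exact_mod_cast hk)
    rwa [zpow_neg, zpow_natCast, ← inv_pow] at h11
  have hm0 : (m : ℚ_[p]) ≠ 0 := by exact_mod_cast hm.ne'
  have hmn : ‖(m : ℤ_[p])‖ ≠ 0 := by
    rw [norm_ne_zero_iff]
    exact_mod_cast hm.ne'
  rw [tendsto_zero_iff_norm_tendsto_zero] at h9 ⊢
  have h12 := h9.const_mul (‖(m : ℤ_[p])‖⁻¹)
  rw [mul_zero] at h12
  refine h12.congr fun k => ?_
  rw [norm_mul, ← mul_assoc, inv_mul_cancel₀ hmn, one_mul]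

end

end Pool.Agent.N924.CG
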